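import Pool.Agent.Lib.MP_ed80cb_an.Integrals

open MeasureTheory Metric Set Real Filter Topology
open scoped ContDiff ENNReal

namespace PoolEd80

variable {Ω : Set E} {p : E} {d η R : ℝ}

/-- Cauchy and Schwarz on a ball -/
lemma sq_integral_ball_le (c : E) {t : ℝ} (ht : 0 < t) {u : E → ℝ} (hu : Continuous u) :
    (∫ x in ball c t, u x) ^ 2 ≤ π * t ^ 2 * ∫ x in ball c t, u x ^ 2 := by
  set v : ℝ := π * t ^ 2 with hv
  have hv0 : 0 < v := by positivity
  have hi : ∀ f : E → ℝ, Continuous f → IntegrableOn f (ball c t) := fun f hf =>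
    (hf.continuousOn.integrableOn_compact (isCompact_closedBall c t)).mono_set
      ball_subset_closedBall
  set I := ∫ x in ball c t, u x with hI
  set J := ∫ x in ball c t, u x ^ 2 with hJ
  have h0 : 0 ≤ ∫ x in ball c t, (v * u x - I) ^ 2 := integral_nonneg fun x => sq_nonneg _
  have h1 : ∫ x in ball c t, (v * u x - I) ^ 2 = v ^ 2 * J - 2 * v * I * I + v * I ^ 2 := by
    have e1 : ∀ x, (v * u x - I) ^ 2 = v ^ 2 * u x ^ 2 - 2 * v * I * u x + I ^ 2 := by
      intro x; ring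
    simp only [e1]
    have i1 : IntegrableOn (fun x => v ^ 2 * u x ^ 2) (ball c t) :=
      hi _ (continuous_const.mul (hu.pow 2))
    have i2 : IntegrableOn (fun x => 2 * v * I * u x) (ball c t) :=
      hi _ (continuous_const.mul hu)
    have i3 : IntegrableOn (fun _ : E => I ^ 2) (ball c t) := hi _ continuous_const
    have i12 : IntegrableOn (fun x => v ^ 2 * u x ^ 2 - 2 * v * I * u x) (ball c t) := i1.sub i2
    rw [integral_add i12 i3, integral_sub i1 i2, integral_const_mul, integral_const_mul,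
      setIntegral_const, vol_real_ball c ht.le, smul_eq_mul]
  rw [h1] at h0
  have h2 : 0 ≤ v * (v * J - I ^ 2) := by nlinarith
  have h3 : 0 ≤ v * J - I ^ 2 := by
    by_contra hcon
    push Not at hcon
    nlinarith [mul_pos hv0 (neg_pos.mpr hcon)]
  linarith

lemma Dat.coercive (D : Dat Ω p d η R) :
    ∃ δ : ℝ, 0 < δ ∧ ∀ u : E → ℝ, ContDiff ℝ 1 u → HasCompactSupport u → tsupport u ⊆ Ω →
      δ * (∫ x in ball (D.c 0) (D.s 0 / 2), u x) ^ 2 ≤
        (∫ x, ‖fderiv ℝ u x‖ ^ 2) - ∫ x, D.V x * u x ^ 2 := by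
  have hs := D.hs 0
  have hL := LL_pos R hs
  set c := D.c 0 with hc
  set s := D.s 0 with hsd
  have hC0 : 0 < π * (s / 2) ^ 2 * (2 * s ^ 2 * LL R s) := by positivity
  have hη : 0 < 1 - η := by have := D.η1; linarith
  refine ⟨(1 - η) / (π * (s / 2) ^ 2 * (2 * s ^ 2 * LL R s)), by positivity, ?_⟩
  intro u hu huc husub
  set G := ∫ x, ‖fderiv ℝ u x‖ ^ 2 with hG
  have hG0 : 0 ≤ G := integral_nonneg fun x => by positivity
  have h1 := (D.int_V hu huc husub).2
  rw [← hG] at h1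
  obtain ⟨h2, h3⟩ := hardy_ball (c := c) (R := R) (κ := 1) hs zero_le_one hu huc
    (husub.trans (D.hΩR 0)) (b := bb 1 c s hs) (bb_contDiff 1 c s hs).continuous
    (fun x => bb_le zero_le_one c s hs x) (fun x hx => bb_zero 1 c s hs hx)
  rw [← hG, one_mul] at h3
  have h4 : ∫ x in ball c (s / 2), u x ^ 2 ≤ ∫ x, bb 1 c s hs x * u x ^ 2 := by
    have h5 : ∫ x in ball c (s / 2), bb 1 c s hs x * u x ^ 2 ≤
        ∫ x, bb 1 c s hs x * u x ^ 2 := by
      refine setIntegral_le_integral h2 (Eventually.of_forall fun x => ?_)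
      exact mul_nonneg (bb_nonneg zero_le_one c s hs x) (sq_nonneg _)
    refine le_trans (le_of_eq ?_) h5
    refine setIntegral_congr_fun measurableSet_ball fun x hx => ?_
    show u x ^ 2 = bb 1 c s hs x * u x ^ 2
    rw [bb_eq 1 c s hs hx, one_mul]
  have h5 := sq_integral_ball_le c (half_pos hs) hu.continuous
  have h6 : (∫ x in ball c (s / 2), u x) ^ 2 ≤ π * (s / 2) ^ 2 * (2 * s ^ 2 * LL R s) * G := by
    calc (∫ x in ball c (s / 2), u x) ^ 2
        ≤ π * (s / 2) ^ 2 * ∫ x in ball c (s / 2), u x ^ 2 := h5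
      _ ≤ π * (s / 2) ^ 2 * (2 * s ^ 2 * LL R s * G) :=
          mul_le_mul_of_nonneg_left (h4.trans h3) (by positivity)
      _ = _ := by ring
  have h7 : (1 - η) / (π * (s / 2) ^ 2 * (2 * s ^ 2 * LL R s)) *
      (∫ x in ball c (s / 2), u x) ^ 2 ≤ (1 - η) * G := by
    rw [div_mul_eq_mul_div, div_le_iff₀ hC0]
    calc (1 - η) * (∫ x in ball c (s / 2), u x) ^ 2
        ≤ (1 - η) * (π * (s / 2) ^ 2 * (2 * s ^ 2 * LL R s) * G) :=
          mul_le_mul_of_nonneg_left h6 hη.le
      _ = _ := by ring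
  linarith

/-- every nonempty bounded open set and every point of its closure carry the data of the
construction, with blocks violating any prescribed bound -/
lemma exists_dat (hΩ : IsOpen Ω) (hne : Ω.Nonempty) (hb : Bornology.IsBounded Ω)
    (hp : p ∈ closure Ω) (hd : 0 < d) (hη : 0 < η) (hη1 : η < 1) :
    ∃ R : ℝ, ∃ D : Dat Ω p d η R, ∀ k : ℕ, ∃ u : E → ℝ, ContDiff ℝ ∞ u ∧ HasCompactSupport u ∧
      tsupport u ⊆ Ω ∧
      (∫ x, ‖fderiv ℝ u x‖ ^ 2) - ∫ x, D.B k x * u x ^ 2 ≤ 1 ∧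
      (k : ℝ) ≤ ∫ x in ball (D.c k) (D.s k), Real.exp (4 * π * u x ^ 2) := by
  obtain ⟨ρ, hρ⟩ := hb.subset_ball (0 : E)
  obtain ⟨x0, hx0⟩ := hne
  have hρ0 : 0 < ρ := by
    have := hρ hx0
    rw [mem_ball] at this
    exact lt_of_le_of_lt dist_nonneg this
  set R : ℝ := max (2 * ρ) 1 with hR
  have hsubR : ∀ c ∈ Ω, Ω ⊆ ball c R := by
    intro c hc x hx
    rw [mem_ball]
    have h1 := hρ hc
    have h2 := hρ hx
    rw [mem_ball] at h1 h2
    have h3 := dist_triangle x 0 c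
    rw [dist_comm 0 c] at h3
    have h4 : 2 * ρ ≤ R := le_max_left _ _
    linarith
  have hcr : ∀ k : ℕ, ∃ c : E, ∃ r : ℝ, 0 < r ∧ r ≤ 1 ∧ ball c r ⊆ Ω ∩ ball p (d / (k + 1)) ∧
      p ∉ ball c r := by
    intro k
    have hk : 0 < d / ((k : ℝ) + 1) := by positivity
    have hU : IsOpen (Ω ∩ ball p (d / (k + 1))) := hΩ.inter isOpen_ball
    have hUne : (Ω ∩ ball p (d / (k + 1))).Nonempty := by
      obtain ⟨y, hy1, hy2⟩ := mem_closure_iff.mp hp (ball p (d / (k + 1))) isOpen_ball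
        (mem_ball_self hk)
      exact ⟨y, hy2, hy1⟩
    have hUp : ((Ω ∩ ball p (d / (k + 1))) ∩ {p}ᶜ).Nonempty :=
      (dense_compl_singleton p).inter_open_nonempty _ hU hUne
    obtain ⟨c, hc⟩ := hUp
    have hopen : IsOpen ((Ω ∩ ball p (d / (k + 1))) ∩ {p}ᶜ) := hU.inter isOpen_compl_singleton
    obtain ⟨r, hr0, hr⟩ := Metric.isOpen_iff.mp hopen c hc
    refine ⟨c, min r 1, lt_min hr0 one_pos, min_le_right _ _, ?_, ?_⟩
    · exact ((ball_subset_ball (min_le_left _ _)).trans hr).trans inter_subset_left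
    · intro hmem
      have := hr (ball_subset_ball (min_le_left _ _) hmem)
      exact this.2 rfl
  choose c r hr0 hr1 hball hpball using hcr
  have hR1 : 1 ≤ R := le_max_right _ _
  have hblock := fun k : ℕ => block (c k) (r := r k) (R := R) (ε := ep η k) (k : ℝ) (hr0 k)
    ((hr1 k).trans hR1) (ep_pos hη k) ((ep_le hη k).trans hη1.le)
  choose s hs hsr hs1 a hQ hM using hblock
  have hsub : ∀ k, ball (c k) (s k) ⊆ ball (c k) (r k) := fun k => ball_subset_ball (hsr k).le
  let D : Dat Ω p d η R :=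
    { c := c
      s := s
      hs := hs
      hs1 := hs1
      hΩ := fun k => ((hsub k).trans (hball k)).trans inter_subset_left
      hp := fun k hk => hpball k (hsub k hk)
      hd := fun k x hx => by
        have := (hball k (hsub k hx)).2
        rwa [mem_ball] at this
      hR := hR1
      hΩR := fun k => hsubR (c k) ((hball k) (mem_ball_self (hr0 k))).1
      d0 := hd
      η0 := hη
      η1 := hη1 }
  refine ⟨R, D, fun k => ⟨uu (a k) (c k) (r k) (s k), contDiff_uu _ _ _ (hs k),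
    uu_compact _ _ (hr0 k) (hs k), ?_, hQ k, hM k⟩⟩
  exact ((uu_support _ _ (hr0 k) (hs k)).trans (hball k)).trans inter_subset_left

end PoolEd80
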