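import Pool.Agent.Lib.MP_ed80cb_an.Hardy

open MeasureTheory Metric Set Real
open scoped ContDiff

namespace PoolEd80

/-- the logarithmic constant -/
noncomputable def LL (R s : ℝ) : ℝ := 1 + Real.log ((R ^ 2 + s ^ 2) / s ^ 2)

lemma LL_pos (R : ℝ) {s : ℝ} (hs : 0 < s) : 1 ≤ LL R s := by
  unfold LL
  have : 0 ≤ Real.log ((R ^ 2 + s ^ 2) / s ^ 2) := by
    apply Real.log_nonneg
    rw [le_div_iff₀ (by positivity)]
    nlinarith [sq_nonneg R]
  linarith

/-- Hardy type inequality on a small ball -/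
lemma hardy_ball {c : E} {s R κ : ℝ} (hs : 0 < s) (hκ : 0 ≤ κ) {u : E → ℝ} (hu : ContDiff ℝ 1 u)
    (hc : HasCompactSupport u) (hsub : tsupport u ⊆ ball c R) {b : E → ℝ}
    (hbc : Continuous b) (hb1 : ∀ x, b x ≤ κ)
    (hb2 : ∀ x, x ∉ ball c s → b x = 0) :
    Integrable (fun x => b x * u x ^ 2) ∧
    ∫ x, b x * u x ^ 2 ≤ κ * (2 * s ^ 2 * LL R s) * ∫ x, ‖fderiv ℝ u x‖ ^ 2 := by
  have hell : ∀ x ∈ ball c R, 1 < ell (1 + Real.log (R ^ 2 + s ^ 2)) c s x := by
    intro x hx
    have hw := wt_pos c hs x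
    have h1 : ‖x - c‖ < R := by rwa [mem_ball, dist_eq_norm] at hx
    have h2 : wt c s x < R ^ 2 + s ^ 2 := by
      unfold wt
      nlinarith [norm_nonneg (x - c)]
    have h3 := Real.log_lt_log hw h2
    unfold ell
    linarith
  have hsub' : tsupport u ⊆ {x | 0 < ell (1 + Real.log (R ^ 2 + s ^ 2)) c s x} := by
    intro x hx
    have := hell x (hsub hx)
    exact lt_trans one_pos this
  have hcu2 : HasCompactSupport fun x => u x ^ 2 :=
    hc.comp_left (g := fun t : ℝ => t ^ 2) (by norm_num)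
  have hts2 : tsupport (fun x => u x ^ 2) ⊆ tsupport u := by
    apply closure_mono
    intro x hx h
    apply hx
    show u x ^ 2 = 0
    have : u x = 0 := h
    rw [this]; norm_num
  have hint : Integrable fun x => b x * u x ^ 2 :=
    (hbc.mul (hu.continuous.pow 2)).integrable_of_hasCompactSupport hcu2.mul_left
  refine ⟨hint, ?_⟩
  have h1 := hardy_weighted hs hu hc hsub'
  have hL := LL_pos R hs
  have hU : IsOpen {x | 0 < ell (1 + Real.log (R ^ 2 + s ^ 2)) c s x} :=
    isOpen_lt continuous_const (continuous_ell _ c hs)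
  have hwi : Integrable fun x => u x ^ 2 *
      (2 * s ^ 2 / (wt c s x ^ 2 * ell (1 + Real.log (R ^ 2 + s ^ 2)) c s x)) := by
    refine integrable_mul_of_tsupport hU (hu.continuous.pow 2) hcu2 (hts2.trans hsub') ?_
    refine ContinuousOn.div continuousOn_const
      (((contDiff_wt c s).continuous.pow 2).mul (continuous_ell _ c hs)).continuousOn ?_
    intro x hx
    have h1 : 0 < ell _ c s x := hx
    have h2 := wt_pos c hs x
    positivity
  have h2 : ∫ x, b x * u x ^ 2 ≤ ∫ x, (κ * (2 * s ^ 2 * LL R s)) * (u x ^ 2 *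
      (2 * s ^ 2 / (wt c s x ^ 2 * ell (1 + Real.log (R ^ 2 + s ^ 2)) c s x))) := by
    refine integral_mono hint (hwi.const_mul _) ?_
    intro x
    show b x * u x ^ 2 ≤ (κ * (2 * s ^ 2 * LL R s)) * (u x ^ 2 *
      (2 * s ^ 2 / (wt c s x ^ 2 * ell (1 + Real.log (R ^ 2 + s ^ 2)) c s x)))
    by_cases hx : x ∈ tsupport u
    · have hl := hell x (hsub hx)
      have hw := wt_pos c hs x
      set l := ell (1 + Real.log (R ^ 2 + s ^ 2)) c s x with hldef
      set w := wt c s x with hwdef
      by_cases hxs : x ∈ ball c s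
      · have h3 : ‖x - c‖ < s := by rwa [mem_ball, dist_eq_norm] at hxs
        have h4 : w ≤ 2 * s ^ 2 := by
          rw [hwdef]; unfold wt
          nlinarith [norm_nonneg (x - c)]
        have h5 : s ^ 2 ≤ w := by
          rw [hwdef]; unfold wt
          nlinarith [norm_nonneg (x - c)]
        have h6 : l ≤ LL R s := by
          rw [hldef]
          unfold ell LL
          rw [Real.log_div (by positivity) (by positivity)]
          have : Real.log (s ^ 2) ≤ Real.log (wt c s x) := Real.log_le_log (by positivity) h5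
          linarith
        have h7 : 1 ≤ (2 * s ^ 2 * LL R s) * (2 * s ^ 2 / (w ^ 2 * l)) := by
          rw [← mul_div_assoc, le_div_iff₀ (by positivity)]
          have h8 : w ^ 2 ≤ (2 * s ^ 2) ^ 2 := pow_le_pow_left₀ hw.le h4 2
          have h9 : w ^ 2 * l ≤ (2 * s ^ 2) ^ 2 * LL R s :=
            mul_le_mul h8 h6 (by linarith) (by positivity)
          nlinarith [h9]
        have h8 : 0 ≤ κ * u x ^ 2 := by positivity
        have h9 := mul_le_mul_of_nonneg_left h7 h8
        have h10 := mul_le_mul_of_nonneg_right (hb1 x) (sq_nonneg (u x))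
        calc b x * u x ^ 2 ≤ κ * u x ^ 2 := h10
          _ = κ * u x ^ 2 * 1 := by ring
          _ ≤ _ := h9
          _ = _ := by ring
      · rw [hb2 x hxs]
        have : 0 < l := by linarith
        have : 0 ≤ (κ * (2 * s ^ 2 * LL R s)) * (u x ^ 2 * (2 * s ^ 2 / (w ^ 2 * l))) := by
          positivity
        linarith
    · have hu0 : u x = 0 := image_eq_zero_of_notMem_tsupport hx
      simp [hu0]
  rw [integral_const_mul] at h2
  refine h2.trans ?_
  refine mul_le_mul_of_nonneg_left h1 ?_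
  positivity

end PoolEd80
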