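import Pool.Agent.Lib.MP_ed80cb_an.Moser
import Pool.Agent.Lib.MP_ed80cb_an.HardyBall

open MeasureTheory Metric Set Real
open scoped ContDiff

namespace PoolEd80

lemma real_part1 {Y K N Λ L : ℝ} (hK : 1 ≤ K) (hY : 100 * K ≤ Y) (hN : Y - K ≤ N)
    (hΛ0 : 0 < Λ) (hΛ : Λ ≤ Y + K) (hL : L ≤ Y + K) : Λ * L / 2 ≤ N ^ 2 := by
  have h1 : (Y - K) ^ 2 ≤ N ^ 2 := by
    apply pow_le_pow_left₀ (by linarith) hN
  have h2 : Λ * L ≤ (Y + K) * (Y + K) := by
    calc Λ * L ≤ Λ * (Y + K) := mul_le_mul_of_nonneg_left hL hΛ0.le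
      _ ≤ (Y + K) * (Y + K) := mul_le_mul_of_nonneg_right hΛ (by linarith)
  nlinarith

lemma real_part2 {δ Y K N Λ : ℝ} (hδ : 0 < δ) (hδ1 : δ < 1) (hK : 1 ≤ K) (hY : 100 * K ≤ Y)
    (hN : Y - K ≤ N) (hΛ0 : 0 < Λ) (hΛ : Λ ≤ Y + K) :
    Y + δ * Y - 6 * K ≤ N ^ 2 / (Λ * (1 - δ)) := by
  have h1 : (Y - K) ^ 2 ≤ N ^ 2 := by
    apply pow_le_pow_left₀ (by linarith) hN
  have h3 : 0 < 1 - δ := by linarith
  rw [le_div_iff₀ (by positivity)]
  have h4 : (Y + δ * Y - 6 * K) * (1 - δ) ≤ Y - 3 * K := by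
    have hK0 : 0 ≤ K := by linarith
    nlinarith [mul_nonneg hK0 (sq_nonneg (1 - δ)), mul_nonneg hK0 (sq_nonneg δ),
      mul_le_mul_of_nonneg_right hY (sq_nonneg δ)]
  have h5 : (Y + δ * Y - 6 * K) * (Λ * (1 - δ)) ≤ (Y - 3 * K) * Λ := by
    have := mul_le_mul_of_nonneg_right h4 hΛ0.le
    linarith
  have h6 : (Y - 3 * K) * Λ ≤ (Y - 3 * K) * (Y + K) :=
    mul_le_mul_of_nonneg_left hΛ (by linarith)
  nlinarith

/-- the potential bump -/
noncomputable def bb (κ : ℝ) (c : E) (s : ℝ) (hs : 0 < s) (x : E) : ℝ :=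
  κ * (⟨s / 2, s, by positivity, by linarith⟩ : ContDiffBump c) x

lemma bb_contDiff (κ : ℝ) (c : E) (s : ℝ) (hs : 0 < s) : ContDiff ℝ ∞ (bb κ c s hs) := by
  unfold bb
  exact contDiff_const.mul (ContDiffBump.contDiff _)

lemma bb_nonneg {κ : ℝ} (hκ : 0 ≤ κ) (c : E) (s : ℝ) (hs : 0 < s) (x : E) :
    0 ≤ bb κ c s hs x := mul_nonneg hκ (ContDiffBump.nonneg _)

lemma bb_le {κ : ℝ} (hκ : 0 ≤ κ) (c : E) (s : ℝ) (hs : 0 < s) (x : E) :
    bb κ c s hs x ≤ κ := mul_le_of_le_one_right hκ (ContDiffBump.le_one _)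

lemma bb_eq (κ : ℝ) (c : E) (s : ℝ) (hs : 0 < s) {x : E} (hx : x ∈ ball c (s / 2)) :
    bb κ c s hs x = κ := by
  unfold bb
  rw [ContDiffBump.one_of_mem_closedBall _ (ball_subset_closedBall hx), mul_one]

lemma bb_zero (κ : ℝ) (c : E) (s : ℝ) (hs : 0 < s) {x : E} (hx : x ∉ ball c s) :
    bb κ c s hs x = 0 := by
  unfold bb
  rw [ContDiffBump.zero_of_le_dist _ (by simpa using hx), mul_zero]

/-- the height of the potential bump -/
noncomputable def kap (ε R s : ℝ) : ℝ := ε / (2 * s ^ 2 * LL R s)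

lemma kap_pos {ε R s : ℝ} (hε : 0 < ε) (hs : 0 < s) : 0 < kap ε R s := by
  unfold kap
  have := LL_pos R hs
  positivity

/-- The building block: a small potential bump at the point `c` for which the remainder term
functional violates the Trudinger-Moser bound `M` in the ball of radius `r`. -/
lemma block (c : E) {r R ε : ℝ} (M : ℝ) (hr : 0 < r) (hrR : r ≤ R) (hε : 0 < ε)
    (hε1 : ε ≤ 1) :
    ∃ s : ℝ, ∃ hs : 0 < s, s < r ∧ s < 1 ∧ ∃ a : ℝ,
      (∫ x, ‖fderiv ℝ (uu a c r s) x‖ ^ 2) -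
        ∫ x, bb (kap ε R s) c s hs x * uu a c r s x ^ 2 ≤ 1 ∧
      M ≤ ∫ x in ball c s, Real.exp (4 * π * uu a c r s x ^ 2) := by
  have hR : 0 < R := hr.trans_le hrR
  set K : ℝ := 2 + Real.log (R ^ 2 + 1) + |Real.log (r ^ 2)| + Real.log 2 with hKdef
  have hl2 : 0 < Real.log 2 := Real.log_pos (by norm_num)
  have hlR : 0 ≤ Real.log (R ^ 2 + 1) := Real.log_nonneg (by nlinarith)
  have hK1 : 1 ≤ K := by
    have := abs_nonneg (Real.log (r ^ 2)); linarith
  set δ : ℝ := ε / 64 with hδdef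
  have hδ : 0 < δ := by positivity
  have hδ1 : δ < 1 := by rw [hδdef]; linarith
  obtain ⟨Y, hY1, hY2⟩ : ∃ Y : ℝ, 100 * K ≤ Y ∧ |M| ≤ δ * Y - 6 * K := by
    refine ⟨max (100 * K) ((|M| + 6 * K) / δ), le_max_left _ _, ?_⟩
    have := le_max_right (100 * K) ((|M| + 6 * K) / δ)
    rw [div_le_iff₀ hδ] at this
    linarith
  set s : ℝ := Real.exp (-(Y / 2)) with hsdef
  have hs : 0 < s := Real.exp_pos _
  have hs2 : s ^ 2 = Real.exp (-Y) := by
    rw [hsdef, ← Real.exp_nat_mul]; congr 1; push_cast; ring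
  have hls2 : Real.log (s ^ 2) = -Y := by rw [hs2, Real.log_exp]
  have hs1 : s < 1 := by
    rw [hsdef, ← Real.exp_zero]; exact Real.exp_lt_exp.mpr (by linarith)
  have hsr : s < r := by
    rw [hsdef, ← Real.lt_log_iff_exp_lt hr]
    have h1 : Real.log (r ^ 2) = 2 * Real.log r := by rw [Real.log_pow]; norm_num
    have h2 := neg_abs_le (Real.log (r ^ 2))
    have h3 := abs_nonneg (Real.log (r ^ 2))
    linarith
  have hs21 : s ^ 2 < 1 := by nlinarith
  refine ⟨s, hs, hsr, hs1, ?_⟩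
  set Λ : ℝ := Real.log ((r ^ 2 + s ^ 2) / s ^ 2) with hΛdef
  have hΛ0 : 0 < Λ := by
    apply Real.log_pos
    rw [lt_div_iff₀ (by positivity)]
    have : 0 < r ^ 2 := by positivity
    linarith
  have hΛle : Λ ≤ Y + K := by
    rw [hΛdef, Real.log_div (by positivity) (by positivity), hls2]
    have : Real.log (r ^ 2 + s ^ 2) ≤ Real.log (R ^ 2 + 1) := by
      apply Real.log_le_log (by positivity)
      have : r ^ 2 ≤ R ^ 2 := pow_le_pow_left₀ hr.le hrR 2
      linarith
    have := abs_nonneg (Real.log (r ^ 2))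
    linarith
  set L : ℝ := LL R s with hLdef
  have hL1 : 1 ≤ L := LL_pos R hs
  have hLle : L ≤ Y + K := by
    rw [hLdef]; unfold LL
    rw [Real.log_div (by positivity) (by positivity), hls2]
    have : Real.log (R ^ 2 + s ^ 2) ≤ Real.log (R ^ 2 + 1) := by
      apply Real.log_le_log (by positivity)
      linarith
    have := abs_nonneg (Real.log (r ^ 2))
    linarith
  set N : ℝ := Real.log (r ^ 2) - Real.log (2 * s ^ 2) - 1 with hNdef
  have hN : Y - K ≤ N := by
    rw [hNdef, Real.log_mul (by norm_num) (by positivity), hls2]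
    have := neg_abs_le (Real.log (r ^ 2))
    linarith
  have hN0 : 0 ≤ N := by linarith
  have hden : 0 < 4 * π * Λ * (1 - δ) := by
    have : 0 < 1 - δ := by linarith
    positivity
  set a : ℝ := Real.sqrt (1 / (4 * π * Λ * (1 - δ))) with hadef
  have ha0 : 0 ≤ a := Real.sqrt_nonneg _
  have ha2 : a ^ 2 = 1 / (4 * π * Λ * (1 - δ)) := Real.sq_sqrt (by positivity)
  refine ⟨a, ?_, ?_⟩
  · have h1 := integral_grad_uu a c hr hs
    have hκ := kap_pos (R := R) hε hs
    set κ := kap ε R s with hκdef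
    have hbc : Continuous (bb κ c s hs) := (bb_contDiff κ c s hs).continuous
    have huc : Continuous (uu a c r s) := (contDiff_uu a c r hs).continuous
    have hcu2 : HasCompactSupport fun x => uu a c r s x ^ 2 :=
      (uu_compact a c hr hs).comp_left (g := fun t : ℝ => t ^ 2) (by norm_num)
    have hint : Integrable fun x => bb κ c s hs x * uu a c r s x ^ 2 :=
      (hbc.mul (huc.pow 2)).integrable_of_hasCompactSupport hcu2.mul_left
    have h2 : π * (s / 2) ^ 2 * (κ * (a * N) ^ 2) ≤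
        ∫ x, bb κ c s hs x * uu a c r s x ^ 2 := by
      have h3 : ∫ x in ball c (s / 2), bb κ c s hs x * uu a c r s x ^ 2 ≤
          ∫ x, bb κ c s hs x * uu a c r s x ^ 2 := by
        refine setIntegral_le_integral hint (Filter.Eventually.of_forall fun x => ?_)
        exact mul_nonneg (bb_nonneg hκ.le c s hs x) (sq_nonneg _)
      refine le_trans ?_ h3
      have h4 : ∫ x in ball c (s / 2), (κ * (a * N) ^ 2) = π * (s / 2) ^ 2 * (κ * (a * N) ^ 2) := by
        rw [setIntegral_const, vol_real_ball c (by positivity), smul_eq_mul]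
      rw [← h4]
      refine setIntegral_mono_on ?_ hint.integrableOn measurableSet_ball ?_
      · apply integrableOn_const
        · exact measure_ball_lt_top.ne
        · exact enorm_ne_top
      · intro x hx
        rw [bb_eq κ c s hs hx]
        refine mul_le_mul_of_nonneg_left ?_ hκ.le
        refine pow_le_pow_left₀ (by positivity) ?_ 2
        exact uu_lower ha0 c hs (ball_subset_ball (by linarith) hx)
    have h5 : 4 * π * a ^ 2 * Λ - π * (s / 2) ^ 2 * (κ * (a * N) ^ 2) ≤ 1 := by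
      have h6 : π * (s / 2) ^ 2 * (κ * (a * N) ^ 2) = π * ε * a ^ 2 * N ^ 2 / (8 * L) := by
        rw [hκdef]; unfold kap
        rw [← hLdef]
        field_simp
        ring
      have h7 : 4 * π * a ^ 2 * Λ * (1 - δ) = 1 := by
        have : (1 - δ) ≠ 0 := by
          have : 0 < 1 - δ := by linarith
          exact this.ne'
        rw [ha2]; field_simp
      have h8 : 4 * π * a ^ 2 * Λ * δ ≤ π * ε * a ^ 2 * N ^ 2 / (8 * L) := by
        rw [le_div_iff₀ (by positivity), hδdef]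
        have h9 := real_part1 hK1 hY1 hN hΛ0 hΛle hLle
        have h10 : 0 ≤ π * ε * a ^ 2 := by positivity
        have h11 := mul_le_mul_of_nonneg_left h9 h10
        linarith
      rw [h6]
      linarith
    linarith
  · have h1 : ∀ x ∈ ball c s, Real.exp (4 * π * (a * N) ^ 2) ≤
        Real.exp (4 * π * uu a c r s x ^ 2) := by
      intro x hx
      apply Real.exp_le_exp.mpr
      refine mul_le_mul_of_nonneg_left ?_ (by positivity)
      exact pow_le_pow_left₀ (by positivity) (uu_lower ha0 c hs hx) 2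
    have h2 : ∫ x in ball c s, Real.exp (4 * π * (a * N) ^ 2) =
        π * s ^ 2 * Real.exp (4 * π * (a * N) ^ 2) := by
      rw [setIntegral_const, vol_real_ball c hs.le, smul_eq_mul]
    have h3 : ∫ x in ball c s, Real.exp (4 * π * (a * N) ^ 2) ≤
        ∫ x in ball c s, Real.exp (4 * π * uu a c r s x ^ 2) := by
      refine setIntegral_mono_on ?_ ?_ measurableSet_ball h1
      · apply integrableOn_const
        · exact measure_ball_lt_top.ne
        · exact enorm_ne_top
      · have hc : Continuous fun x => Real.exp (4 * π * uu a c r s x ^ 2) :=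
          Real.continuous_exp.comp (continuous_const.mul
            ((contDiff_uu a c r hs).continuous.pow 2))
        exact (hc.continuousOn.integrableOn_compact (isCompact_closedBall c s)).mono_set
          ball_subset_closedBall
    refine le_trans ?_ h3
    rw [h2]
    have h4 : 4 * π * (a * N) ^ 2 = N ^ 2 / (Λ * (1 - δ)) := by
      have : (1 - δ) ≠ 0 := by
        have : 0 < 1 - δ := by linarith
        exact this.ne'
      rw [mul_pow, ha2]
      field_simp
    have h5 := real_part2 hδ hδ1 hK1 hY1 hN hΛ0 hΛle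
    rw [h4, hs2]
    have h6 : Real.exp (Y + δ * Y - 6 * K) ≤ Real.exp (N ^ 2 / (Λ * (1 - δ))) :=
      Real.exp_le_exp.mpr h5
    have h7 : Real.exp (-Y) * Real.exp (Y + δ * Y - 6 * K) = Real.exp (δ * Y - 6 * K) := by
      rw [← Real.exp_add]; congr 1; ring
    have h8 : M ≤ Real.exp (δ * Y - 6 * K) := by
      have := Real.add_one_le_exp (δ * Y - 6 * K)
      have := le_abs_self M
      linarith
    have h9 : 1 ≤ π := by linarith [Real.pi_gt_three]
    have h10 : Real.exp (δ * Y - 6 * K) ≤ Real.exp (-Y) * Real.exp (N ^ 2 / (Λ * (1 - δ))) := by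
      rw [← h7]
      exact mul_le_mul_of_nonneg_left h6 (Real.exp_pos _).le
    have h11 : 0 ≤ Real.exp (-Y) * Real.exp (N ^ 2 / (Λ * (1 - δ))) := by positivity
    calc M ≤ Real.exp (-Y) * Real.exp (N ^ 2 / (Λ * (1 - δ))) := h8.trans h10
      _ = 1 * (Real.exp (-Y) * Real.exp (N ^ 2 / (Λ * (1 - δ)))) := by ring
      _ ≤ π * (Real.exp (-Y) * Real.exp (N ^ 2 / (Λ * (1 - δ)))) :=
          mul_le_mul_of_nonneg_right h9 h11
      _ = _ := by ring

end PoolEd80
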