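import Pool.Agent.Lib.MP_ed80cb_an.LogPot

open MeasureTheory Metric Set Real Filter Topology
open scoped ContDiff ENNReal

namespace PoolEd80

/-- `r^2 log(1/r) + r^2/2` -/
noncomputable def phiK (r : ℝ) : ℝ := π * r ^ 2 * (Real.log (1 / r) + 1 / 2)

lemma phiK_nonneg {r : ℝ} (hr : 0 < r) (hr1 : r < 1) : 0 ≤ phiK r := by
  unfold phiK
  have : 0 ≤ Real.log (1 / r) := Real.log_nonneg (by rw [le_div_iff₀ hr]; linarith)
  positivity

lemma tendsto_phiK : Tendsto phiK (𝓝[>] 0) (𝓝 0) := by
  have hc : Continuous fun y : ℝ => π * (y * -(y * Real.log y)) + π * y ^ 2 * (1 / 2) := by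
    refine Continuous.add (continuous_const.mul (continuous_id.mul
      Real.continuous_mul_log.neg)) (by fun_prop)
  have he : phiK = fun y : ℝ => π * (y * -(y * Real.log y)) + π * y ^ 2 * (1 / 2) := by
    ext y; unfold phiK; rw [one_div, Real.log_inv]; ring
  rw [he]
  have := (hc.tendsto 0).mono_left (nhdsWithin_le_nhds (s := Ioi 0))
  simpa using this

lemma kato_small {b : E → ℝ} {κ : ℝ} (hκ : 0 ≤ κ) (hb : ∀ y, |b y| ≤ κ) (x : E) {r : ℝ}
    (hr : 0 < r) (hr1 : r < 1) :
    ∫⁻ y in ball x r, ENNReal.ofReal (Real.log (1 / ‖x - y‖) * |b y|) ≤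
      ENNReal.ofReal (κ * phiK r) := by
  calc ∫⁻ y in ball x r, ENNReal.ofReal (Real.log (1 / ‖x - y‖) * |b y|)
      ≤ ∫⁻ y in ball x r, ENNReal.ofReal κ * ENNReal.ofReal (Real.log (1 / ‖x - y‖)) := by
        refine setLIntegral_mono_ae' measurableSet_ball (Eventually.of_forall fun y hy => ?_)
        have h1 : ‖x - y‖ < r := by
          rw [mem_ball, dist_eq_norm, norm_sub_rev] at hy; exact hy
        have h0 : 0 ≤ Real.log (1 / ‖x - y‖) := by
          rcases eq_or_lt_of_le (norm_nonneg (x - y)) with h2 | h2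
          · rw [← h2]; simp
          · apply Real.log_nonneg
            rw [le_div_iff₀ h2]
            linarith
        rw [← ENNReal.ofReal_mul hκ]
        apply ENNReal.ofReal_le_ofReal
        rw [mul_comm κ]
        exact mul_le_mul_of_nonneg_left (hb y) h0
    _ = ENNReal.ofReal κ * ENNReal.ofReal (phiK r) := by
        rw [lintegral_const_mul' _ _ ENNReal.ofReal_ne_top, lintegral_log x hr hr1]
        rfl
    _ = _ := by rw [← ENNReal.ofReal_mul hκ]

lemma kato_unif {b : E → ℝ} {κ : ℝ} (hκ : 0 ≤ κ) (hb : ∀ y, |b y| ≤ κ) {c : E} {s : ℝ}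
    (hs : 0 < s) (hs1 : s < 1) (hb0 : ∀ y, y ∉ ball c s → b y = 0) (x : E) (r : ℝ) :
    ∫⁻ y in ball x r, ENNReal.ofReal (Real.log (1 / ‖x - y‖) * |b y|) ≤
      ENNReal.ofReal (κ * (phiK s + π * s ^ 2 * Real.log (1 / s))) := by
  have hls : 0 ≤ Real.log (1 / s) := Real.log_nonneg (by rw [le_div_iff₀ hs]; linarith)
  have hpt : ∀ y, ENNReal.ofReal (Real.log (1 / ‖x - y‖) * |b y|) ≤
      ENNReal.ofReal κ * ((ball x s).indicator
        (fun y => ENNReal.ofReal (Real.log (1 / ‖x - y‖))) y +
        (ball c s).indicator (fun _ => ENNReal.ofReal (Real.log (1 / s))) y) := by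
    intro y
    by_cases hyc : y ∈ ball c s
    · by_cases hyx : y ∈ ball x s
      · rw [indicator_of_mem hyx]
        have h1 : ‖x - y‖ < s := by
          rw [mem_ball, dist_eq_norm, norm_sub_rev] at hyx; exact hyx
        have h0 : 0 ≤ Real.log (1 / ‖x - y‖) := by
          rcases eq_or_lt_of_le (norm_nonneg (x - y)) with h2 | h2
          · rw [← h2]; simp
          · apply Real.log_nonneg
            rw [le_div_iff₀ h2]
            linarith
        calc ENNReal.ofReal (Real.log (1 / ‖x - y‖) * |b y|)
            ≤ ENNReal.ofReal (κ * Real.log (1 / ‖x - y‖)) := by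
              apply ENNReal.ofReal_le_ofReal
              rw [mul_comm κ]
              exact mul_le_mul_of_nonneg_left (hb y) h0
          _ = ENNReal.ofReal κ * ENNReal.ofReal (Real.log (1 / ‖x - y‖)) :=
              ENNReal.ofReal_mul hκ
          _ ≤ _ := by
              gcongr
              exact le_self_add
      · rw [indicator_of_mem hyc]
        have h1 : s ≤ ‖x - y‖ := by
          rw [mem_ball, dist_eq_norm, norm_sub_rev] at hyx; exact not_lt.mp hyx
        have h2 : Real.log (1 / ‖x - y‖) ≤ Real.log (1 / s) := by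
          apply Real.log_le_log
          · have : 0 < ‖x - y‖ := lt_of_lt_of_le hs h1
            positivity
          · exact one_div_le_one_div_of_le hs h1
        calc ENNReal.ofReal (Real.log (1 / ‖x - y‖) * |b y|)
            ≤ ENNReal.ofReal (κ * Real.log (1 / s)) := by
              apply ENNReal.ofReal_le_ofReal
              calc Real.log (1 / ‖x - y‖) * |b y| ≤ Real.log (1 / s) * |b y| :=
                    mul_le_mul_of_nonneg_right h2 (abs_nonneg _)
                _ ≤ Real.log (1 / s) * κ := mul_le_mul_of_nonneg_left (hb y) hls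
                _ = _ := mul_comm _ _
          _ = ENNReal.ofReal κ * ENNReal.ofReal (Real.log (1 / s)) :=
              ENNReal.ofReal_mul hκ
          _ ≤ _ := by
              gcongr
              exact le_add_self
    · rw [hb0 y hyc]
      simp
  calc ∫⁻ y in ball x r, ENNReal.ofReal (Real.log (1 / ‖x - y‖) * |b y|)
      ≤ ∫⁻ y, ENNReal.ofReal (Real.log (1 / ‖x - y‖) * |b y|) := setLIntegral_le_lintegral _ _
    _ ≤ ∫⁻ y, ENNReal.ofReal κ * ((ball x s).indicator
        (fun y => ENNReal.ofReal (Real.log (1 / ‖x - y‖))) y +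
        (ball c s).indicator (fun _ => ENNReal.ofReal (Real.log (1 / s))) y) :=
        lintegral_mono hpt
    _ = ENNReal.ofReal κ * (ENNReal.ofReal (phiK s) +
          ENNReal.ofReal (Real.log (1 / s)) * volume (ball c s)) := by
        rw [lintegral_const_mul' _ _ ENNReal.ofReal_ne_top]
        rw [lintegral_add_right _ (measurable_const.indicator measurableSet_ball)]
        rw [lintegral_indicator measurableSet_ball, lintegral_indicator measurableSet_ball,
          lintegral_log x hs hs1, setLIntegral_const]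
        rfl
    _ = _ := by
        have hv : volume (ball c s) = ENNReal.ofReal (π * s ^ 2) := by
          rw [EuclideanSpace.volume_ball_fin_two, ← ENNReal.ofReal_pow hs.le,
            ← ENNReal.ofReal_mul (by positivity)]
          congr 1
          ring
        rw [hv, ← ENNReal.ofReal_mul hls, ← ENNReal.ofReal_add (phiK_nonneg hs hs1)
          (by positivity), ← ENNReal.ofReal_mul hκ]
        congr 1
        ring

end PoolEd80
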