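import Pool.Agent.Lib.MP_ed80cb_an.Block
import Pool.Agent.Lib.MP_ed80cb_an.KatoBound

open MeasureTheory Metric Set Real Filter Topology
open scoped ContDiff ENNReal

namespace PoolEd80

/-- the data of the construction -/
structure Dat (Ω : Set E) (p : E) (d η R : ℝ) where
  c : ℕ → E
  s : ℕ → ℝ
  hs : ∀ k, 0 < s k
  hs1 : ∀ k, s k < 1
  hΩ : ∀ k, ball (c k) (s k) ⊆ Ω
  hp : ∀ k, p ∉ ball (c k) (s k)
  hd : ∀ (k : ℕ) (x : E), x ∈ ball (c k) (s k) → dist x p < d / (k + 1)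
  hR : 1 ≤ R
  hΩR : ∀ k, Ω ⊆ ball (c k) R
  d0 : 0 < d
  η0 : 0 < η
  η1 : η < 1

variable {Ω : Set E} {p : E} {d η R : ℝ}

/-- weights -/
noncomputable def ep (η : ℝ) (k : ℕ) : ℝ := η / 2 / 2 ^ k

lemma ep_pos {η : ℝ} (hη : 0 < η) (k : ℕ) : 0 < ep η k := by unfold ep; positivity

lemma ep_le {η : ℝ} (hη : 0 < η) (k : ℕ) : ep η k ≤ η := by
  unfold ep
  have h1 : (1 : ℝ) ≤ 2 ^ k := one_le_pow₀ (by norm_num)
  rw [div_le_iff₀ (by positivity)]
  nlinarith

lemma hasSum_ep (η : ℝ) : HasSum (ep η) η := hasSum_geometric_two' η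

/-- the bumps -/
noncomputable def Dat.B (D : Dat Ω p d η R) (k : ℕ) : E → ℝ :=
  bb (kap (ep η k) R (D.s k)) (D.c k) (D.s k) (D.hs k)

/-- the potential -/
noncomputable def Dat.V (D : Dat Ω p d η R) (x : E) : ℝ := ∑' k, D.B k x

lemma Dat.kap_pos (D : Dat Ω p d η R) (k : ℕ) : 0 < kap (ep η k) R (D.s k) :=
  PoolEd80.kap_pos (ep_pos D.η0 k) (D.hs k)

lemma Dat.B_nonneg (D : Dat Ω p d η R) (k : ℕ) (x : E) : 0 ≤ D.B k x :=
  bb_nonneg (D.kap_pos k).le _ _ _ _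

lemma Dat.B_zero (D : Dat Ω p d η R) (k : ℕ) {x : E} (hx : x ∉ ball (D.c k) (D.s k)) :
    D.B k x = 0 := bb_zero _ _ _ _ hx

lemma Dat.B_contDiff (D : Dat Ω p d η R) (k : ℕ) : ContDiff ℝ ∞ (D.B k) :=
  bb_contDiff _ _ _ _

lemma Dat.B_near (D : Dat Ω p d η R) {x : E} (hx : x ≠ p) :
    ∃ n : ℕ, ∀ y ∈ ball x (dist x p / 2), ∀ k, n ≤ k → D.B k y = 0 := by
  have hxp : 0 < dist x p := dist_pos.mpr hx
  obtain ⟨n, hn⟩ := exists_nat_ge (d / (dist x p / 2))
  refine ⟨n, ?_⟩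
  intro y hy k hk
  apply D.B_zero
  intro hyk
  have h1 := D.hd k y hyk
  have h2 : dist x p / 2 < dist y p := by
    have := dist_triangle x y p
    rw [mem_ball, dist_comm] at hy
    linarith
  have h3 : d / (dist x p / 2) ≤ k := hn.trans (by exact_mod_cast hk)
  rw [div_le_iff₀ (by positivity)] at h3
  have h4 : dist x p / 2 < d / (k + 1) := h2.trans h1
  rw [lt_div_iff₀ (by positivity)] at h4
  nlinarith

lemma Dat.B_at_p (D : Dat Ω p d η R) (k : ℕ) : D.B k p = 0 := D.B_zero k (D.hp k)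

lemma Dat.summable_B (D : Dat Ω p d η R) (x : E) : Summable fun k => D.B k x := by
  by_cases hx : x = p
  · subst hx
    have : (fun k => D.B k x) = fun _ => 0 := funext fun k => D.B_at_p k
    rw [this]
    exact summable_zero
  · obtain ⟨n, hn⟩ := D.B_near hx
    have hxp : 0 < dist x p := dist_pos.mpr hx
    refine summable_of_ne_finset_zero (s := Finset.range n) ?_
    intro k hk
    exact hn x (mem_ball_self (by positivity)) k (by simpa using hk)

lemma Dat.V_nonneg (D : Dat Ω p d η R) (x : E) : 0 ≤ D.V x := tsum_nonneg fun k => D.B_nonneg k x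

lemma Dat.B_le_V (D : Dat Ω p d η R) (k : ℕ) (x : E) : D.B k x ≤ D.V x :=
  (D.summable_B x).le_tsum k fun j _ => D.B_nonneg j x

lemma Dat.V_support (D : Dat Ω p d η R) (x : E) (hx : D.V x ≠ 0) : x ∈ Ω ∧ dist x p < d := by
  have h1 : ∃ k, D.B k x ≠ 0 := by
    by_contra hcon
    push Not at hcon
    apply hx
    unfold Dat.V
    simp [hcon]
  obtain ⟨k, hk⟩ := h1
  have h2 : x ∈ ball (D.c k) (D.s k) := by
    by_contra hcon
    exact hk (D.B_zero k hcon)
  refine ⟨D.hΩ k h2, lt_of_lt_of_le (D.hd k x h2) ?_⟩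
  have := D.d0
  apply div_le_self this.le
  have : (0 : ℝ) ≤ k := Nat.cast_nonneg k
  linarith

lemma Dat.V_contDiffOn (D : Dat Ω p d η R) : ContDiffOn ℝ ∞ D.V {p}ᶜ := by
  intro x hx
  apply ContDiffAt.contDiffWithinAt
  have hx' : x ≠ p := hx
  obtain ⟨n, hn⟩ := D.B_near hx'
  have hxp : 0 < dist x p := dist_pos.mpr hx'
  have h1 : ContDiffAt ℝ ∞ (fun y => ∑ k ∈ Finset.range n, D.B k y) x :=
    (ContDiff.sum fun k _ => D.B_contDiff k).contDiffAt
  refine h1.congr_of_eventuallyEq ?_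
  filter_upwards [ball_mem_nhds x (by positivity : 0 < dist x p / 2)] with y hy
  unfold Dat.V
  refine tsum_eq_sum ?_
  intro k hk
  exact hn y hy k (by simpa using hk)

lemma Dat.V_measurable (D : Dat Ω p d η R) : Measurable D.V :=
  measurable_of_continuousOn_compl_singleton p D.V_contDiffOn.continuousOn

end PoolEd80
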