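import Mathlib

open MeasureTheory Metric Set Real
open scoped ContDiff

namespace PoolEd80

/-- the Euclidean plane -/
abbrev E := EuclideanSpace ℝ (Fin 2)

/-- `w = |x - c|^2 + s^2` -/
noncomputable def wt (c : E) (s : ℝ) (x : E) : ℝ := ‖x - c‖ ^ 2 + s ^ 2

lemma wt_pos (c : E) {s : ℝ} (hs : 0 < s) (x : E) : 0 < wt c s x := by
  unfold wt; positivity

lemma contDiff_wt (c : E) (s : ℝ) : ContDiff ℝ ∞ (wt c s) := by
  unfold wt
  exact ((contDiff_id.sub contDiff_const).norm_sq ℝ).add contDiff_const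

lemma hasFDerivAt_wt (c : E) (s : ℝ) (x : E) :
    HasFDerivAt (wt c s) ((2 : ℝ) • (innerSL ℝ (x - c))) x := by
  have h : HasFDerivAt (fun x : E => x - c) (ContinuousLinearMap.id ℝ E) x :=
    (hasFDerivAt_id x).sub_const c
  have h2 := h.norm_sq.add_const (s ^ 2)
  refine h2.congr_fderiv ?_
  ext v
  simp [two_smul]

/-- unit vectors -/
noncomputable def ev (i : Fin 2) : E := EuclideanSpace.single i (1 : ℝ)

lemma inner_ev (y : E) (i : Fin 2) : innerSL ℝ y (ev i) = y i := by
  simp [ev, EuclideanSpace.inner_single_right]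

/-- `ell = A - log w` -/
noncomputable def ell (A : ℝ) (c : E) (s : ℝ) (x : E) : ℝ := A - Real.log (wt c s x)

/-- `h = 1/(w ell)` -/
noncomputable def hh (A : ℝ) (c : E) (s : ℝ) (x : E) : ℝ := (wt c s x * ell A c s x)⁻¹

lemma hasFDerivAt_ell (A : ℝ) (c : E) {s : ℝ} (hs : 0 < s) (x : E) :
    HasFDerivAt (ell A c s) (-((wt c s x)⁻¹ • ((2 : ℝ) • (innerSL ℝ (x - c))))) x := by
  have := ((hasFDerivAt_wt c s x).log (wt_pos c hs x).ne').const_sub A
  exact this

lemma hasFDerivAt_hh (A : ℝ) (c : E) {s : ℝ} (hs : 0 < s) (x : E) (hx : 0 < ell A c s x) :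
    HasFDerivAt (hh A c s)
      ((-(2 * (ell A c s x - 1) / (wt c s x * ell A c s x) ^ 2)) • (innerSL ℝ (x - c))) x := by
  have hw := wt_pos c hs x
  have h1 := (hasFDerivAt_wt c s x).mul (hasFDerivAt_ell A c hs x)
  have h2 : HasFDerivAt (fun y => (wt c s y * ell A c s y)⁻¹) _ x :=
    (hasDerivAt_inv (by positivity : wt c s x * ell A c s x ≠ 0)).comp_hasFDerivAt x h1
  refine h2.congr_fderiv ?_
  ext v
  simp
  field_simp
  ring

/-- the components of the vector field -/
noncomputable def FF (A : ℝ) (c : E) (s : ℝ) (i : Fin 2) (x : E) : ℝ := (x i - c i) * hh A c s x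

lemma hasFDerivAt_FF (A : ℝ) (c : E) {s : ℝ} (hs : 0 < s) (i : Fin 2) (x : E)
    (hx : 0 < ell A c s x) :
    HasFDerivAt (FF A c s i)
      ((x i - c i) • ((-(2 * (ell A c s x - 1) / (wt c s x * ell A c s x) ^ 2)) •
        (innerSL ℝ (x - c))) + hh A c s x • (EuclideanSpace.proj i : E →L[ℝ] ℝ)) x := by
  have h1 : HasFDerivAt (fun y : E => y i - c i) (EuclideanSpace.proj i : E →L[ℝ] ℝ) x :=
    (EuclideanSpace.proj i : E →L[ℝ] ℝ).hasFDerivAt.sub_const (c i)
  exact h1.mul (hasFDerivAt_hh A c hs x hx)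

lemma fderiv_FF_ev (A : ℝ) (c : E) {s : ℝ} (hs : 0 < s) (i : Fin 2) (x : E)
    (hx : 0 < ell A c s x) :
    fderiv ℝ (FF A c s i) x (ev i) =
      hh A c s x - (x i - c i) ^ 2 * (2 * (ell A c s x - 1) / (wt c s x * ell A c s x) ^ 2) := by
  rw [(hasFDerivAt_FF A c hs i x hx).fderiv]
  simp only [add_apply, smul_apply, inner_ev]
  simp [ev]
  ring

lemma continuous_ell (A : ℝ) (c : E) {s : ℝ} (hs : 0 < s) : Continuous (ell A c s) := by
  unfold ell
  exact continuous_const.sub ((contDiff_wt c s).continuous.log fun x => (wt_pos c hs x).ne')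

lemma contDiffOn_FF (A : ℝ) (c : E) {s : ℝ} (hs : 0 < s) (i : Fin 2) :
    ContDiffOn ℝ ∞ (FF A c s i) {x | 0 < ell A c s x} := by
  have h1 : ContDiff ℝ ∞ (fun y : E => y i - c i) :=
    ((EuclideanSpace.proj i : E →L[ℝ] ℝ).contDiff).sub contDiff_const
  have h2 : ContDiff ℝ ∞ (ell A c s) := by
    unfold ell
    exact contDiff_const.sub ((contDiff_wt c s).log fun x => (wt_pos c hs x).ne')
  have h3 : ContDiffOn ℝ ∞ (hh A c s) {x | 0 < ell A c s x} := by
    unfold hh
    refine ContDiffOn.inv ((contDiff_wt c s).mul h2).contDiffOn ?_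
    intro x hx
    have := wt_pos c hs x
    have hx' : 0 < ell A c s x := hx
    positivity
  exact h1.contDiffOn.mul h3

lemma continuous_mul_of_tsupport {φ g : E → ℝ} {U : Set E} (hU : IsOpen U) (hφ : Continuous φ)
    (hs : tsupport φ ⊆ U) (hg : ContinuousOn g U) : Continuous (fun x => φ x * g x) := by
  refine ContinuousOn.continuous_of_tsupport_subset (s := U) (hφ.continuousOn.mul hg) hU ?_
  exact (tsupport_mul_subset_left).trans hs

lemma integrable_mul_of_tsupport {φ g : E → ℝ} {U : Set E} (hU : IsOpen U) (hφ : Continuous φ)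
    (hc : HasCompactSupport φ)
    (hs : tsupport φ ⊆ U) (hg : ContinuousOn g U) : Integrable (fun x => φ x * g x) :=
  (continuous_mul_of_tsupport hU hφ hs hg).integrable_of_hasCompactSupport hc.mul_right

lemma sum_ev (y : E) : ∑ i, y i • ev i = y := by
  ext j
  fin_cases j <;> simp [ev]

end PoolEd80
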