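import Pool.Agent.Lib.MP_ed80cb_an.Field

open MeasureTheory Metric Set Real
open scoped ContDiff

namespace PoolEd80

lemma ibp {A : ℝ} {c : E} {s : ℝ} (hs : 0 < s) {u : E → ℝ} (hu : ContDiff ℝ 1 u)
    (hc : HasCompactSupport u) (hsub : tsupport u ⊆ {x | 0 < ell A c s x}) (i : Fin 2) :
    Integrable (fun x => u x ^ 2 * fderiv ℝ (FF A c s i) x (ev i)) ∧
    Integrable (fun x => (2 * u x * fderiv ℝ u x (ev i)) * FF A c s i x) ∧
    ∫ x, u x ^ 2 * fderiv ℝ (FF A c s i) x (ev i) =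
      - ∫ x, (2 * u x * fderiv ℝ u x (ev i)) * FF A c s i x := by
  have hU : IsOpen {x | 0 < ell A c s x} := isOpen_lt continuous_const (continuous_ell A c hs)
  have hFc := contDiffOn_FF A c hs i
  have hd : ∀ x, fderiv ℝ (fun x => u x ^ 2) x (ev i) = 2 * u x * fderiv ℝ u x (ev i) := by
    intro x
    have h := ((hu.differentiable one_ne_zero x).hasFDerivAt.pow 2).fderiv
    rw [h]
    simp
  have hu2 : Continuous fun x => u x ^ 2 := hu.continuous.pow 2
  have hcu2 : HasCompactSupport fun x => u x ^ 2 := by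
    refine hc.mono' ?_
    intro x hx
    apply subset_tsupport
    intro h
    apply hx
    show u x ^ 2 = 0
    have : u x = 0 := h
    rw [this]; norm_num
  have hts2 : tsupport (fun x => u x ^ 2) ⊆ tsupport u := by
    apply closure_mono
    intro x hx h
    apply hx
    show u x ^ 2 = 0
    have : u x = 0 := h
    rw [this]; norm_num
  have hduc : Continuous fun x => 2 * u x * fderiv ℝ u x (ev i) := by
    have h1 : Continuous fun x => fderiv ℝ u x (ev i) :=
      (hu.continuous_fderiv one_ne_zero).clm_apply continuous_const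
    exact (continuous_const.mul hu.continuous).mul h1
  have hdts : tsupport (fun x => 2 * u x * fderiv ℝ u x (ev i)) ⊆ tsupport u := by
    apply closure_mono
    intro x hx h
    apply hx
    show 2 * u x * fderiv ℝ u x (ev i) = 0
    have : u x = 0 := h
    rw [this]; ring
  have hdcs : HasCompactSupport fun x => 2 * u x * fderiv ℝ u x (ev i) :=
    HasCompactSupport.of_support_subset_isCompact hc (subset_tsupport _ |>.trans hdts)
  have hFfd : ContinuousOn (fun x => fderiv ℝ (FF A c s i) x (ev i)) {x | 0 < ell A c s x} :=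
    (hFc.continuousOn_fderiv_of_isOpen hU (by norm_num)).clm_apply continuousOn_const
  have i1 := integrable_mul_of_tsupport hU hu2 hcu2 (hts2.trans hsub) hFfd
  have i2 := integrable_mul_of_tsupport hU hduc hdcs (hdts.trans hsub) hFc.continuousOn
  have i3 := integrable_mul_of_tsupport hU hu2 hcu2 (hts2.trans hsub) hFc.continuousOn
  refine ⟨i1, i2, ?_⟩
  have := integral_mul_fderiv_eq_neg_fderiv_mul_of_integrable (μ := (volume : Measure E))
    (f := fun x => u x ^ 2) (g := FF A c s i) (v := ev i) (by simpa only [hd] using i2) i1 i3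
    (fun x _ => (hu.differentiable one_ne_zero x).pow 2)
    (fun x hx => (hFc.differentiableOn (by norm_num)).differentiableAt
      (hU.mem_nhds (hsub (hts2 hx))))
  rw [this]
  simp only [hd]

/-- Hardy type inequality with a logarithmic weight. -/
lemma hardy_weighted {A : ℝ} {c : E} {s : ℝ} (hs : 0 < s) {u : E → ℝ} (hu : ContDiff ℝ 1 u)
    (hc : HasCompactSupport u) (hsub : tsupport u ⊆ {x | 0 < ell A c s x}) :
    ∫ x, u x ^ 2 * (2 * s ^ 2 / (wt c s x ^ 2 * ell A c s x)) ≤ ∫ x, ‖fderiv ℝ u x‖ ^ 2 := by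
  obtain ⟨a0, b0, e0⟩ := ibp hs hu hc hsub 0
  obtain ⟨a1, b1, e1⟩ := ibp hs hu hc hsub 1
  have hU : IsOpen {x | 0 < ell A c s x} := isOpen_lt continuous_const (continuous_ell A c hs)
  have hgi : Integrable fun x => ‖fderiv ℝ u x‖ ^ 2 := by
    refine Continuous.integrable_of_hasCompactSupport
      ((hu.continuous_fderiv one_ne_zero).norm.pow 2) ?_
    have h1 : HasCompactSupport (fderiv ℝ u) := hc.fderiv (𝕜 := ℝ)
    have h2 : HasCompactSupport fun x => ‖fderiv ℝ u x‖ := h1.norm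
    exact h2.comp_left (g := fun t : ℝ => t ^ 2) (by norm_num)
  have hcu2 : HasCompactSupport fun x => u x ^ 2 :=
    hc.comp_left (g := fun t : ℝ => t ^ 2) (by norm_num)
  have hts2 : tsupport (fun x => u x ^ 2) ⊆ tsupport u := by
    apply closure_mono
    intro x hx h
    apply hx
    show u x ^ 2 = 0
    have : u x = 0 := h
    rw [this]; norm_num
  have hwi : Integrable fun x => u x ^ 2 * (2 * s ^ 2 / (wt c s x ^ 2 * ell A c s x)) := by
    refine integrable_mul_of_tsupport hU (hu.continuous.pow 2) hcu2 (hts2.trans hsub) ?_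
    refine ContinuousOn.div continuousOn_const
      (((contDiff_wt c s).continuous.pow 2).mul (continuous_ell A c hs)).continuousOn ?_
    intro x hx
    have h1 : 0 < ell A c s x := hx
    have h2 := wt_pos c hs x
    positivity
  have hab0 : Integrable fun x => u x ^ 2 * fderiv ℝ (FF A c s 0) x (ev 0) +
      (2 * u x * fderiv ℝ u x (ev 0)) * FF A c s 0 x := a0.add b0
  have hab1 : Integrable fun x => u x ^ 2 * fderiv ℝ (FF A c s 1) x (ev 1) +
      (2 * u x * fderiv ℝ u x (ev 1)) * FF A c s 1 x := a1.add b1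
  have hab : Integrable fun x => (u x ^ 2 * fderiv ℝ (FF A c s 0) x (ev 0) +
      (2 * u x * fderiv ℝ u x (ev 0)) * FF A c s 0 x) + (u x ^ 2 * fderiv ℝ (FF A c s 1) x (ev 1) +
      (2 * u x * fderiv ℝ u x (ev 1)) * FF A c s 1 x) := hab0.add hab1
  have hsum : ∫ x, (‖fderiv ℝ u x‖ ^ 2 +
      ((u x ^ 2 * fderiv ℝ (FF A c s 0) x (ev 0) + (2 * u x * fderiv ℝ u x (ev 0)) * FF A c s 0 x)
      + (u x ^ 2 * fderiv ℝ (FF A c s 1) x (ev 1) +
        (2 * u x * fderiv ℝ u x (ev 1)) * FF A c s 1 x))) = ∫ x, ‖fderiv ℝ u x‖ ^ 2 := by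
    rw [integral_add hgi hab, integral_add hab0 hab1,
      integral_add a0 b0, integral_add a1 b1, e0, e1]
    ring
  rw [← hsum]
  refine integral_mono hwi (hgi.add hab) ?_
  intro x
  show u x ^ 2 * (2 * s ^ 2 / (wt c s x ^ 2 * ell A c s x)) ≤ ‖fderiv ℝ u x‖ ^ 2 +
      ((u x ^ 2 * fderiv ℝ (FF A c s 0) x (ev 0) + (2 * u x * fderiv ℝ u x (ev 0)) * FF A c s 0 x)
      + (u x ^ 2 * fderiv ℝ (FF A c s 1) x (ev 1) +
        (2 * u x * fderiv ℝ u x (ev 1)) * FF A c s 1 x))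
  by_cases hx : x ∈ tsupport u
  · have hl : 0 < ell A c s x := hsub hx
    have hw := wt_pos c hs x
    rw [fderiv_FF_ev A c hs 0 x hl, fderiv_FF_ev A c hs 1 x hl]
    have hn : ‖x - c‖ ^ 2 = (x 0 - c 0) ^ 2 + (x 1 - c 1) ^ 2 := by
      rw [EuclideanSpace.real_norm_sq_eq, Fin.sum_univ_two]; simp
    have hdir : fderiv ℝ u x (ev 0) * (x 0 - c 0) + fderiv ℝ u x (ev 1) * (x 1 - c 1)
        = fderiv ℝ u x (x - c) := by
      conv_rhs => rw [← sum_ev (x - c)]
      rw [Fin.sum_univ_two, map_add, map_smul, map_smul]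
      simp [mul_comm]
    have hle : |fderiv ℝ u x (x - c)| ≤ ‖fderiv ℝ u x‖ * ‖x - c‖ := by
      have := (fderiv ℝ u x).le_opNorm (x - c)
      rwa [Real.norm_eq_abs] at this
    set D := fderiv ℝ u x (x - c) with hD
    set G := ‖fderiv ℝ u x‖ with hG
    set t := ‖x - c‖ with ht
    set w := wt c s x with hwdef
    set l := ell A c s x with hldef
    have hwt : w = t ^ 2 + s ^ 2 := rfl
    have hh' : hh A c s x = (w * l)⁻¹ := rfl
    have hG0 : 0 ≤ G := norm_nonneg _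
    have ht0 : 0 ≤ t := norm_nonneg _
    have hFF0 : FF A c s 0 x = (x 0 - c 0) * (w * l)⁻¹ := rfl
    have hFF1 : FF A c s 1 x = (x 1 - c 1) * (w * l)⁻¹ := rfl
    rw [hFF0, hFF1, hh']
    have hsq : 0 ≤ G ^ 2 + 2 * u x * D * (w * l)⁻¹ + u x ^ 2 * t ^ 2 * ((w * l)⁻¹) ^ 2 := by
      have h1 : D ^ 2 ≤ G ^ 2 * t ^ 2 := by
        have := pow_le_pow_left₀ (abs_nonneg D) hle 2
        rw [sq_abs] at this
        nlinarith [this]
      have h2 : 0 < (w * l)⁻¹ := by positivity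
      have h3 : (u x * D * (w * l)⁻¹) ^ 2 ≤ G ^ 2 * (u x ^ 2 * t ^ 2 * ((w * l)⁻¹) ^ 2) := by
        have : 0 ≤ u x ^ 2 * ((w * l)⁻¹) ^ 2 := by positivity
        nlinarith [mul_le_mul_of_nonneg_left h1 this]
      have h4 : 0 ≤ u x ^ 2 * t ^ 2 * ((w * l)⁻¹) ^ 2 := by positivity
      have h5 : 0 ≤ G ^ 2 := by positivity
      -- (a + b)^2 ≥ 4ab ≥ 4 c^2
      have h6 : (2 * (u x * D * (w * l)⁻¹)) ^ 2 ≤
          (G ^ 2 + u x ^ 2 * t ^ 2 * ((w * l)⁻¹) ^ 2) ^ 2 := by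
        nlinarith [h3, sq_nonneg (G ^ 2 - u x ^ 2 * t ^ 2 * ((w * l)⁻¹) ^ 2)]
      have h7 := abs_le_of_sq_le_sq h6 (by positivity)
      have h8 := (abs_le.mp (h7)).1
      linarith
    have hexp : ‖fderiv ℝ u x‖ ^ 2 +
      ((u x ^ 2 * ((w * l)⁻¹ - (x 0 - c 0) ^ 2 * (2 * (l - 1) / (w * l) ^ 2)) +
        (2 * u x * fderiv ℝ u x (ev 0)) * ((x 0 - c 0) * (w * l)⁻¹))
      + (u x ^ 2 * ((w * l)⁻¹ - (x 1 - c 1) ^ 2 * (2 * (l - 1) / (w * l) ^ 2)) +
        (2 * u x * fderiv ℝ u x (ev 1)) * ((x 1 - c 1) * (w * l)⁻¹)))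
      = (G ^ 2 + 2 * u x * D * (w * l)⁻¹ + u x ^ 2 * t ^ 2 * ((w * l)⁻¹) ^ 2) +
        u x ^ 2 * (2 * (w * l)⁻¹ - t ^ 2 * (2 * (l - 1) / (w * l) ^ 2)
          - t ^ 2 * ((w * l)⁻¹) ^ 2) := by
      rw [hn, ← hdir]
      ring
    rw [hexp]
    have hpt : 2 * s ^ 2 / (w ^ 2 * l) ≤
        2 * (w * l)⁻¹ - t ^ 2 * (2 * (l - 1) / (w * l) ^ 2) - t ^ 2 * ((w * l)⁻¹) ^ 2 := by
      have : 2 * (w * l)⁻¹ - t ^ 2 * (2 * (l - 1) / (w * l) ^ 2) - t ^ 2 * ((w * l)⁻¹) ^ 2
          = 2 * s ^ 2 / (w ^ 2 * l) + t ^ 2 / (w ^ 2 * l ^ 2) := by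
        have : s ^ 2 = w - t ^ 2 := by rw [hwt]; ring
        rw [this]
        field_simp
        ring
      rw [this]
      have : 0 ≤ t ^ 2 / (w ^ 2 * l ^ 2) := by positivity
      linarith
    have := mul_le_mul_of_nonneg_left hpt (sq_nonneg (u x))
    linarith
  · have hu0 : u x = 0 := image_eq_zero_of_notMem_tsupport hx
    simp only [hu0]
    simp

end PoolEd80
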