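import Pool.Agent.Lib.MP_ed80cb_an.Data

open MeasureTheory Metric Set Real Filter Topology
open scoped ContDiff ENNReal

namespace PoolEd80

variable {Ω : Set E} {p : E} {d η R : ℝ}

lemma Dat.int_B (D : Dat Ω p d η R) (k : ℕ) {u : E → ℝ} (hu : ContDiff ℝ 1 u)
    (hc : HasCompactSupport u) (hsub : tsupport u ⊆ Ω) :
    Integrable (fun x => D.B k x * u x ^ 2) ∧
      ∫ x, D.B k x * u x ^ 2 ≤ ep η k * ∫ x, ‖fderiv ℝ u x‖ ^ 2 := by
  have hs := D.hs k
  have hκ := D.kap_pos k
  have hL := LL_pos R hs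
  obtain ⟨h1, h2⟩ := hardy_ball (c := D.c k) (R := R) hs hκ.le hu hc (hsub.trans (D.hΩR k))
    (b := D.B k) (D.B_contDiff k).continuous
    (fun x => bb_le hκ.le _ _ _ x) (fun x hx => D.B_zero k hx)
  refine ⟨h1, h2.trans (le_of_eq ?_)⟩
  congr 1
  unfold kap
  have : LL R (D.s k) ≠ 0 := by linarith
  field_simp

lemma Dat.int_V (D : Dat Ω p d η R) {u : E → ℝ} (hu : ContDiff ℝ 1 u)
    (hc : HasCompactSupport u) (hsub : tsupport u ⊆ Ω) :
    Integrable (fun x => D.V x * u x ^ 2) ∧
      ∫ x, D.V x * u x ^ 2 ≤ η * ∫ x, ‖fderiv ℝ u x‖ ^ 2 := by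
  set G := ∫ x, ‖fderiv ℝ u x‖ ^ 2 with hG
  have hG0 : 0 ≤ G := integral_nonneg fun x => by positivity
  have hB := fun k => D.int_B k hu hc hsub
  have hV : ∀ x, D.V x * u x ^ 2 = ∑' k, D.B k x * u x ^ 2 := by
    intro x
    unfold Dat.V
    rw [tsum_mul_right]
  have hBn : ∀ k x, 0 ≤ D.B k x * u x ^ 2 := fun k x => mul_nonneg (D.B_nonneg k x) (sq_nonneg _)
  have hint : Integrable (fun x => D.V x * u x ^ 2) := by
    refine ⟨(D.V_measurable.mul (hu.continuous.measurable.pow_const 2)).aestronglyMeasurable, ?_⟩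
    rw [hasFiniteIntegral_iff_ofReal (Eventually.of_forall fun x =>
      mul_nonneg (D.V_nonneg x) (sq_nonneg _))]
    have h1 : ∀ x, ENNReal.ofReal (D.V x * u x ^ 2) =
        ∑' k, ENNReal.ofReal (D.B k x * u x ^ 2) := by
      intro x
      rw [hV x, ENNReal.ofReal_tsum_of_nonneg (fun k => hBn k x)]
      exact (D.summable_B x).mul_right _
    simp only [h1]
    have hmeas : ∀ k, AEMeasurable (fun x => ENNReal.ofReal (D.B k x * u x ^ 2)) volume := fun k =>
      ((D.B_contDiff k).continuous.mul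
        (hu.continuous.pow 2)).measurable.ennreal_ofReal.aemeasurable
    rw [lintegral_tsum hmeas]
    have h2 : ∀ k, ∫⁻ x, ENNReal.ofReal (D.B k x * u x ^ 2) ≤ ENNReal.ofReal (ep η k * G) := by
      intro k
      rw [← ofReal_integral_eq_lintegral_ofReal (hB k).1 (Eventually.of_forall (hBn k))]
      exact ENNReal.ofReal_le_ofReal (hB k).2
    refine lt_of_le_of_lt (ENNReal.tsum_le_tsum h2) ?_
    rw [← ENNReal.ofReal_tsum_of_nonneg
      (fun k => mul_nonneg (ep_pos D.η0 k).le hG0) ((hasSum_ep η).summable.mul_right G)]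
    exact ENNReal.ofReal_lt_top
  refine ⟨hint, ?_⟩
  have hsum : Summable fun k => ∫ x, ‖D.B k x * u x ^ 2‖ := by
    refine Summable.of_nonneg_of_le (fun k => integral_nonneg fun x => norm_nonneg _) ?_
      ((hasSum_ep η).summable.mul_right G)
    intro k
    have : ∀ x, ‖D.B k x * u x ^ 2‖ = D.B k x * u x ^ 2 := fun x =>
      Real.norm_of_nonneg (hBn k x)
    simp only [this]
    exact (hB k).2
  have h3 := hasSum_integral_of_summable_integral_norm (fun k => (hB k).1) hsum
  have h4 : ∫ x, D.V x * u x ^ 2 = ∫ x, ∑' k, D.B k x * u x ^ 2 := by simp only [hV]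
  rw [h4]
  exact hasSum_le (fun k => (hB k).2) h3 ((hasSum_ep η).mul_right G)

/-- dominating sequence for the Kato integrals -/
noncomputable def Dat.g (D : Dat Ω p d η R) (r : ℝ) (k : ℕ) : ℝ :=
  min (kap (ep η k) R (D.s k) * phiK r) (π * ep η k)

lemma Dat.kato_term (D : Dat Ω p d η R) (k : ℕ) (x : E) {r : ℝ} (hr : 0 < r) (hr1 : r < 1) :
    ∫⁻ y in ball x r, ENNReal.ofReal (Real.log (1 / ‖x - y‖) * |D.B k y|) ≤
      ENNReal.ofReal (D.g r k) := by
  have hκ := D.kap_pos k
  have hs := D.hs k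
  have hs1 := D.hs1 k
  have hb : ∀ y, |D.B k y| ≤ kap (ep η k) R (D.s k) := by
    intro y
    rw [abs_of_nonneg (D.B_nonneg k y)]
    exact bb_le hκ.le _ _ _ y
  have h1 := kato_small hκ.le hb x hr hr1
  have h2 := kato_unif hκ.le hb hs hs1 (fun y hy => D.B_zero k hy) x r
  unfold Dat.g
  rw [ENNReal.ofReal_min]
  refine le_min h1 (h2.trans ?_)
  apply ENNReal.ofReal_le_ofReal
  unfold kap phiK
  have hL : 1 + 2 * Real.log (1 / D.s k) ≤ LL R (D.s k) := by
    unfold LL
    have h3 : 2 * Real.log (1 / D.s k) = Real.log (1 / D.s k ^ 2) := by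
      rw [one_div, one_div, Real.log_inv, Real.log_inv, Real.log_pow]
      push_cast; ring
    rw [h3]
    have h4 : Real.log (1 / D.s k ^ 2) ≤ Real.log ((R ^ 2 + D.s k ^ 2) / D.s k ^ 2) := by
      apply Real.log_le_log (by positivity)
      apply div_le_div_of_nonneg_right _ (by positivity)
      have := D.hR
      nlinarith [sq_nonneg (D.s k)]
    linarith
  have hl : 0 ≤ Real.log (1 / D.s k) := Real.log_nonneg (by rw [le_div_iff₀ hs]; linarith)
  have hL0 : 0 < LL R (D.s k) := by linarith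
  have he := ep_pos D.η0 k
  have h5 : ep η k / (2 * D.s k ^ 2 * LL R (D.s k)) *
      (π * D.s k ^ 2 * (Real.log (1 / D.s k) + 1 / 2) + π * D.s k ^ 2 * Real.log (1 / D.s k))
      = π * ep η k * ((2 * Real.log (1 / D.s k) + 1 / 2) / (2 * LL R (D.s k))) := by
    field_simp
    ring
  rw [h5]
  have h6 : (2 * Real.log (1 / D.s k) + 1 / 2) / (2 * LL R (D.s k)) ≤ 1 := by
    rw [div_le_one (by positivity)]
    linarith
  have h7 : 0 ≤ π * ep η k := by positivity
  calc π * ep η k * ((2 * Real.log (1 / D.s k) + 1 / 2) / (2 * LL R (D.s k)))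
      ≤ π * ep η k * 1 := mul_le_mul_of_nonneg_left h6 h7
    _ = _ := mul_one _

lemma Dat.g_nonneg (D : Dat Ω p d η R) {r : ℝ} (hr : 0 < r) (hr1 : r < 1) (k : ℕ) :
    0 ≤ D.g r k := by
  unfold Dat.g
  refine le_min (mul_nonneg (D.kap_pos k).le (phiK_nonneg hr hr1)) ?_
  have := ep_pos D.η0 k
  positivity

lemma Dat.kato (D : Dat Ω p d η R) (S : Set E) :
    Tendsto (fun r : ℝ => ⨆ x : E, ∫⁻ y in S ∩ ball x r,
      ENNReal.ofReal (Real.log (1 / ‖x - y‖) * |D.V y|)) (𝓝[>] 0) (𝓝 0) := by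
  have hev : ∀ᶠ r : ℝ in 𝓝[>] 0, 0 < r ∧ r < 1 := by
    filter_upwards [self_mem_nhdsWithin, Ioo_mem_nhdsGT (zero_lt_one' ℝ)] with r h1 h2
    exact ⟨h1, h2.2⟩
  have hsumb : Summable fun k => π * ep η k := (hasSum_ep η).summable.mul_left π
  have hT : Tendsto (fun r : ℝ => ∑' k, D.g r k) (𝓝[>] 0) (𝓝 (∑' k : ℕ, (0 : ℝ))) := by
    refine tendsto_tsum_of_dominated_convergence hsumb ?_ ?_
    · intro k
      unfold Dat.g
      have h1 : Tendsto (fun r => kap (ep η k) R (D.s k) * phiK r) (𝓝[>] 0) (𝓝 0) := by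
        simpa using tendsto_phiK.const_mul (kap (ep η k) R (D.s k))
      have h2 := h1.min (tendsto_const_nhds (x := π * ep η k))
      have h3 : min 0 (π * ep η k) = 0 := min_eq_left (by have := ep_pos D.η0 k; positivity)
      rwa [h3] at h2
    · filter_upwards [hev] with r hr k
      rw [Real.norm_of_nonneg (D.g_nonneg hr.1 hr.2 k)]
      exact min_le_right _ _
  rw [tsum_zero] at hT
  have hT2 : Tendsto (fun r : ℝ => ENNReal.ofReal (∑' k, D.g r k)) (𝓝[>] 0) (𝓝 0) := by
    simpa using ENNReal.tendsto_ofReal hT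
  refine tendsto_of_tendsto_of_tendsto_of_le_of_le' tendsto_const_nhds hT2
    (Eventually.of_forall fun _ => zero_le) ?_
  filter_upwards [hev] with r hr
  obtain ⟨hr0, hr1⟩ := hr
  refine iSup_le fun x => ?_
  have hg : Summable (D.g r) := Summable.of_nonneg_of_le (D.g_nonneg hr0 hr1)
    (fun k => min_le_right _ _) hsumb
  rw [ENNReal.ofReal_tsum_of_nonneg (D.g_nonneg hr0 hr1) hg]
  calc ∫⁻ y in S ∩ ball x r, ENNReal.ofReal (Real.log (1 / ‖x - y‖) * |D.V y|)
      ≤ ∫⁻ y in ball x r, ENNReal.ofReal (Real.log (1 / ‖x - y‖) * |D.V y|) :=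
        lintegral_mono_set inter_subset_right
    _ ≤ ∫⁻ y in ball x r, ∑' k, ENNReal.ofReal (Real.log (1 / ‖x - y‖) * |D.B k y|) := by
        refine setLIntegral_mono_ae' measurableSet_ball (Eventually.of_forall fun y hy => ?_)
        have h1 : ‖x - y‖ < r := by
          rw [mem_ball, dist_eq_norm, norm_sub_rev] at hy; exact hy
        have h0 : 0 ≤ Real.log (1 / ‖x - y‖) := by
          rcases eq_or_lt_of_le (norm_nonneg (x - y)) with h2 | h2
          · rw [← h2]; simp
          · apply Real.log_nonneg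
            rw [le_div_iff₀ h2]
            linarith
        have habs : ∀ k, |D.B k y| = D.B k y := fun k => abs_of_nonneg (D.B_nonneg k y)
        rw [abs_of_nonneg (D.V_nonneg y)]
        simp only [habs]
        rw [← ENNReal.ofReal_tsum_of_nonneg (fun k => mul_nonneg h0 (D.B_nonneg k y))
          ((D.summable_B y).mul_left _)]
        apply ENNReal.ofReal_le_ofReal
        rw [tsum_mul_left]
        rfl
    _ = ∑' k, ∫⁻ y in ball x r, ENNReal.ofReal (Real.log (1 / ‖x - y‖) * |D.B k y|) := by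
        refine lintegral_tsum fun k => ?_
        have h1 : Measurable fun y : E => Real.log (1 / ‖x - y‖) * |D.B k y| := by
          have h2 : Measurable (D.B k) := (D.B_contDiff k).continuous.measurable
          have h3 : Measurable fun y : E => ‖x - y‖ :=
            (continuous_const.sub continuous_id).norm.measurable
          exact (Real.measurable_log.comp (measurable_const.div h3)).mul h2.abs
        exact h1.ennreal_ofReal.aemeasurable
    _ ≤ ∑' k, ENNReal.ofReal (D.g r k) :=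
        ENNReal.tsum_le_tsum fun k => D.kato_term k x hr0 hr1

end PoolEd80
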