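import Pool.Agent.Lib.MP_ed80cb_an.Radial

open MeasureTheory Metric Set Real Filter Topology
open scoped ContDiff ENNReal

namespace PoolEd80

lemma integral_y_log {r : ℝ} (hr : 0 < r) :
    ∫ y in (0 : ℝ)..r, y * Real.log (1 / y) = r ^ 2 / 2 * Real.log (1 / r) + r ^ 2 / 4 := by
  have hc : Continuous fun y : ℝ => y * Real.log (1 / y) := by
    have : (fun y : ℝ => y * Real.log (1 / y)) = fun y => -(y * Real.log y) := by
      ext y; rw [one_div, Real.log_inv]; ring
    rw [this]
    exact Real.continuous_mul_log.neg
  have hf : Continuous fun y : ℝ => y / 2 * (y * Real.log (1 / y)) + y ^ 2 / 4 :=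
    ((continuous_id.div_const 2).mul hc).add ((continuous_id.pow 2).div_const 4)
  have h := intervalIntegral.integral_eq_sub_of_hasDeriv_right_of_le hr.le
    (f := fun y : ℝ => y / 2 * (y * Real.log (1 / y)) + y ^ 2 / 4)
    (f' := fun y : ℝ => y * Real.log (1 / y)) hf.continuousOn ?_ (hc.intervalIntegrable _ _)
  · rw [h]
    ring
  · intro y hy
    have hy0 : y ≠ 0 := hy.1.ne'
    apply HasDerivAt.hasDerivWithinAt
    have h1 : HasDerivAt (fun y : ℝ => y / 2 * (y * Real.log (1 / y)) + y ^ 2 / 4)
        ((1 / 2) * (y * Real.log (1 / y)) + y / 2 * (1 * Real.log (1 / y) + y * (-y⁻¹)) +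
          2 * y / 4) y := by
      have e1 : (fun y : ℝ => y / 2 * (y * Real.log (1 / y)) + y ^ 2 / 4) =
          fun y => y / 2 * (y * -Real.log y) + y ^ 2 / 4 := by
        ext y; rw [one_div, Real.log_inv]
      have e2 : Real.log (1 / y) = - Real.log y := by rw [one_div, Real.log_inv]
      rw [e1, e2]
      have := (((hasDerivAt_id y).div_const 2).mul
        ((hasDerivAt_id y).mul (Real.hasDerivAt_log hy0).neg)).add
        ((hasDerivAt_pow 2 y).div_const 4)
      refine this.congr_deriv ?_
      simp
    refine h1.congr_deriv ?_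
    field_simp
    ring

lemma integrableOn_log (x : E) (r : ℝ) :
    IntegrableOn (fun y : E => Real.log (1 / ‖x - y‖)) (ball x r) := by
  have h0 : IntegrableOn (fun y : E => Real.log (1 / ‖y‖)) (ball 0 r) := by
    rw [integrableOn_fun_norm_addHaar (volume : Measure E) (f := fun y : ℝ => Real.log (1 / y))]
    rw [finrank_E]
    have hc : Continuous fun y : ℝ => y * Real.log (1 / y) := by
      have : (fun y : ℝ => y * Real.log (1 / y)) = fun y => -(y * Real.log y) := by
        ext y; rw [one_div, Real.log_inv]; ring
      rw [this]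
      exact Real.continuous_mul_log.neg
    have h3 : IntegrableOn (fun y : ℝ => y * Real.log (1 / y)) (Icc 0 r) volume :=
      hc.continuousOn.integrableOn_compact isCompact_Icc
    have := h3.mono_set Ioo_subset_Icc_self
    simpa using this
  have h1 : IntegrableOn (fun y : E => Real.log (1 / ‖y - x‖)) (ball x r) := by
    rw [← integrable_indicator_iff measurableSet_ball] at h0 ⊢
    have := h0.comp_sub_right x
    refine this.congr (Eventually.of_forall fun y => ?_)
    simp only [indicator, mem_ball, dist_eq_norm, sub_zero]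
  simpa only [norm_sub_rev x] using h1

lemma lintegral_log (x : E) {r : ℝ} (hr : 0 < r) (hr1 : r < 1) :
    ∫⁻ y in ball x r, ENNReal.ofReal (Real.log (1 / ‖x - y‖)) =
      ENNReal.ofReal (π * r ^ 2 * (Real.log (1 / r) + 1 / 2)) := by
  rw [← ofReal_integral_eq_lintegral_ofReal (integrableOn_log x r)]
  · congr 1
    simp only [norm_sub_rev x]
    rw [integral_radial_ball (fun y => Real.log (1 / y)) x r, ← integral_Ioc_eq_integral_Ioo,
      ← intervalIntegral.integral_of_le hr.le, integral_y_log hr]
    ring
  · filter_upwards [ae_restrict_mem measurableSet_ball] with y hy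
    have h1 : ‖x - y‖ < r := by
      rw [mem_ball, dist_eq_norm, norm_sub_rev] at hy; exact hy
    rcases eq_or_lt_of_le (norm_nonneg (x - y)) with h2 | h2
    · rw [← h2]; simp
    · apply Real.log_nonneg
      rw [le_div_iff₀ h2]
      linarith

end PoolEd80
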