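import Pool.Agent.Lib.MP_ed80cb_an.Radial

open MeasureTheory Metric Set Real
open scoped ContDiff

namespace PoolEd80

/-- smooth truncation of `max (t - 1/2) 0` -/
noncomputable def Th (t : ℝ) : ℝ := ∫ y in (0 : ℝ)..t, Real.smoothTransition y

lemma hasDerivAt_Th (t : ℝ) : HasDerivAt Th (Real.smoothTransition t) t := by
  have hc : Continuous Real.smoothTransition := Real.smoothTransition.continuous
  exact intervalIntegral.integral_hasDerivAt_right (hc.intervalIntegrable _ _)
    (hc.stronglyMeasurableAtFilter _ _) hc.continuousAt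

lemma contDiff_Th : ContDiff ℝ ∞ Th := by
  rw [contDiff_infty_iff_deriv]
  refine ⟨fun t => (hasDerivAt_Th t).differentiableAt, ?_⟩
  have : deriv Th = Real.smoothTransition := funext fun t => (hasDerivAt_Th t).deriv
  rw [this]
  exact Real.smoothTransition.contDiff

lemma Th_of_nonpos {t : ℝ} (ht : t ≤ 0) : Th t = 0 := by
  unfold Th
  have : EqOn Real.smoothTransition (fun _ => (0 : ℝ)) (uIcc 0 t) := by
    intro y hy
    rw [uIcc_of_ge ht] at hy
    exact Real.smoothTransition.zero_of_nonpos hy.2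
  rw [intervalIntegral.integral_congr this]
  simp

lemma Th_mono : Monotone Th := by
  refine monotone_of_deriv_nonneg (fun t => (hasDerivAt_Th t).differentiableAt) ?_
  intro t
  rw [(hasDerivAt_Th t).deriv]
  exact Real.smoothTransition.nonneg t

lemma Th_nonneg (t : ℝ) : 0 ≤ Th t := by
  rcases le_total t 0 with h | h
  · rw [Th_of_nonpos h]
  · have := Th_mono h
    rwa [Th_of_nonpos le_rfl] at this

lemma Th_ge (t : ℝ) : t - 1 ≤ Th t := by
  rcases le_total t 1 with h | h
  · linarith [Th_nonneg t]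
  · have hc : Continuous Real.smoothTransition := Real.smoothTransition.continuous
    have h1 : Th t = Th 1 + ∫ y in (1 : ℝ)..t, Real.smoothTransition y := by
      unfold Th
      rw [intervalIntegral.integral_add_adjacent_intervals (hc.intervalIntegrable _ _)
        (hc.intervalIntegrable _ _)]
    have h2 : ∫ y in (1 : ℝ)..t, Real.smoothTransition y = t - 1 := by
      have : EqOn Real.smoothTransition (fun _ => (1 : ℝ)) (uIcc 1 t) := by
        intro y hy
        rw [uIcc_of_le h] at hy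
        exact Real.smoothTransition.one_of_one_le hy.1
      rw [intervalIntegral.integral_congr this]
      simp
    rw [h1, h2]
    linarith [Th_nonneg 1]

/-- the Moser type test function -/
noncomputable def uu (a : ℝ) (c : E) (r s : ℝ) (x : E) : ℝ :=
  a * Th (Real.log (r ^ 2) - Real.log (wt c s x))

lemma contDiff_uu (a : ℝ) (c : E) (r : ℝ) {s : ℝ} (hs : 0 < s) : ContDiff ℝ ∞ (uu a c r s) := by
  unfold uu
  refine contDiff_const.mul (contDiff_Th.comp (contDiff_const.sub
    ((contDiff_wt c s).log fun x => (wt_pos c hs x).ne')))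

lemma uu_support (a : ℝ) (c : E) {r s : ℝ} (hr : 0 < r) (hs : 0 < s) :
    tsupport (uu a c r s) ⊆ ball c r := by
  have h1 : tsupport (uu a c r s) ⊆ {x | wt c s x ≤ r ^ 2} := by
    refine closure_minimal ?_ (isClosed_le (contDiff_wt c s).continuous continuous_const)
    intro x hx
    by_contra hcon
    apply hx
    have h2 : r ^ 2 < wt c s x := not_le.mp hcon
    have h3 : Real.log (r ^ 2) ≤ Real.log (wt c s x) :=
      Real.log_le_log (by positivity) h2.le
    show a * Th _ = 0
    rw [Th_of_nonpos (by linarith), mul_zero]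
  refine h1.trans ?_
  intro x hx
  have hx' : ‖x - c‖ ^ 2 + s ^ 2 ≤ r ^ 2 := hx
  rw [mem_ball, dist_eq_norm]
  have : ‖x - c‖ ^ 2 < r ^ 2 := by
    have : 0 < s ^ 2 := by positivity
    linarith
  exact lt_of_pow_lt_pow_left₀ 2 hr.le this

lemma uu_compact (a : ℝ) (c : E) {r s : ℝ} (hr : 0 < r) (hs : 0 < s) :
    HasCompactSupport (uu a c r s) :=
  (isCompact_closedBall c r).of_isClosed_subset (isClosed_tsupport _)
    ((uu_support a c hr hs).trans ball_subset_closedBall)

lemma norm_fderiv_uu_sq_le (a : ℝ) (c : E) {r s : ℝ} (hr : 0 < r) (hs : 0 < s) (x : E) :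
    ‖fderiv ℝ (uu a c r s) x‖ ^ 2 ≤
      (ball c r).indicator (fun x => 4 * a ^ 2 * (‖x - c‖ ^ 2 / (wt c s x) ^ 2)) x := by
  by_cases hx : x ∈ ball c r
  · rw [indicator_of_mem hx]
    have hw := wt_pos c hs x
    have h1 : HasFDerivAt (fun x => Real.log (r ^ 2) - Real.log (wt c s x))
        (-((wt c s x)⁻¹ • ((2 : ℝ) • (innerSL ℝ (x - c))))) x :=
      ((hasFDerivAt_wt c s x).log hw.ne').const_sub _
    have h2 := ((hasDerivAt_Th (Real.log (r ^ 2) - Real.log (wt c s x))).comp_hasFDerivAt x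
      h1).const_mul a
    have h2' : fderiv ℝ (uu a c r s) x = _ := h2.fderiv
    rw [h2']
    set σ := Real.smoothTransition (Real.log (r ^ 2) - Real.log (wt c s x)) with hσ
    have hσ0 : 0 ≤ σ := Real.smoothTransition.nonneg _
    have hσ1 : σ ≤ 1 := Real.smoothTransition.le_one _
    rw [norm_smul, norm_smul, norm_neg, norm_smul, norm_smul, innerSL_apply_norm]
    rw [mul_pow, mul_pow, mul_pow, mul_pow]
    simp only [Real.norm_eq_abs, sq_abs]
    rw [inv_pow]
    have h3 : σ ^ 2 ≤ 1 := by nlinarith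
    have h4 : 0 ≤ a ^ 2 * ((wt c s x ^ 2)⁻¹ * (2 ^ 2 * ‖x - c‖ ^ 2)) := by positivity
    calc a ^ 2 * (σ ^ 2 * ((wt c s x ^ 2)⁻¹ * (2 ^ 2 * ‖x - c‖ ^ 2)))
        = σ ^ 2 * (a ^ 2 * ((wt c s x ^ 2)⁻¹ * (2 ^ 2 * ‖x - c‖ ^ 2))) := by ring
      _ ≤ 1 * (a ^ 2 * ((wt c s x ^ 2)⁻¹ * (2 ^ 2 * ‖x - c‖ ^ 2))) :=
          mul_le_mul_of_nonneg_right h3 h4
      _ = _ := by ring
  · have h1 : x ∉ tsupport (uu a c r s) := fun h => hx (uu_support a c hr hs h)
    have h2 : fderiv ℝ (uu a c r s) x = 0 := by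
      have : x ∉ tsupport (fderiv ℝ (uu a c r s)) := fun h =>
        h1 (tsupport_fderiv_subset ℝ h)
      exact image_eq_zero_of_notMem_tsupport this
    rw [h2, indicator_of_notMem hx]
    simp

lemma integral_grad_uu (a : ℝ) (c : E) {r s : ℝ} (hr : 0 < r) (hs : 0 < s) :
    ∫ x, ‖fderiv ℝ (uu a c r s) x‖ ^ 2 ≤ 4 * π * a ^ 2 * Real.log ((r ^ 2 + s ^ 2) / s ^ 2) := by
  have hcont : Continuous fun x => 4 * a ^ 2 * (‖x - c‖ ^ 2 / (wt c s x) ^ 2) := by
    refine continuous_const.mul ((by fun_prop : Continuous fun x : E => ‖x - c‖ ^ 2).div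
      ((contDiff_wt c s).continuous.pow 2) ?_)
    intro x
    have := wt_pos c hs x
    positivity
  have hgi : Integrable fun x => ‖fderiv ℝ (uu a c r s) x‖ ^ 2 := by
    have hu := contDiff_uu a c r hs
    refine Continuous.integrable_of_hasCompactSupport
      ((hu.continuous_fderiv (by norm_num)).norm.pow 2) ?_
    have h1 : HasCompactSupport (fderiv ℝ (uu a c r s)) := (uu_compact a c hr hs).fderiv (𝕜 := ℝ)
    have h2 : HasCompactSupport fun x => ‖fderiv ℝ (uu a c r s) x‖ := h1.norm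
    exact h2.comp_left (g := fun t : ℝ => t ^ 2) (by norm_num)
  have h1 : IntegrableOn (fun x => 4 * a ^ 2 * (‖x - c‖ ^ 2 / (wt c s x) ^ 2)) (ball c r) :=
    (hcont.continuousOn.integrableOn_compact (isCompact_closedBall c r)).mono_set
      ball_subset_closedBall
  calc ∫ x, ‖fderiv ℝ (uu a c r s) x‖ ^ 2
      ≤ ∫ x, (ball c r).indicator (fun x => 4 * a ^ 2 * (‖x - c‖ ^ 2 / (wt c s x) ^ 2)) x :=
        integral_mono hgi (h1.integrable_indicator measurableSet_ball)
          (norm_fderiv_uu_sq_le a c hr hs)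
    _ = 4 * a ^ 2 * ∫ x in ball c r, ‖x - c‖ ^ 2 / (wt c s x) ^ 2 := by
        rw [integral_indicator measurableSet_ball, integral_const_mul]
    _ ≤ 4 * a ^ 2 * (π * Real.log ((r ^ 2 + s ^ 2) / s ^ 2)) :=
        mul_le_mul_of_nonneg_left (radial_bound hs hr c) (by positivity)
    _ = _ := by ring

lemma uu_lower {a : ℝ} (ha : 0 ≤ a) (c : E) {r s : ℝ} (hs : 0 < s) {x : E}
    (hx : x ∈ ball c s) :
    a * (Real.log (r ^ 2) - Real.log (2 * s ^ 2) - 1) ≤ uu a c r s x := by
  have h3 : ‖x - c‖ < s := by rwa [mem_ball, dist_eq_norm] at hx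
  have h4 : wt c s x ≤ 2 * s ^ 2 := by
    unfold wt
    nlinarith [norm_nonneg (x - c)]
  have h5 := Real.log_le_log (wt_pos c hs x) h4
  unfold uu
  refine mul_le_mul_of_nonneg_left ?_ ha
  refine (Th_ge _).trans (Th_mono ?_)
  linarith

end PoolEd80
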