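import Pool.Agent.Lib.MP_ed80cb_an.Field

open MeasureTheory Metric Set Real
open scoped ContDiff

namespace PoolEd80

lemma finrank_E : Module.finrank ℝ E = 2 := by simp [E]

lemma vol_real_ball (c : E) {r : ℝ} (hr : 0 ≤ r) : (volume : Measure E).real (ball c r) = π * r ^ 2 := by
  rw [Measure.real, EuclideanSpace.volume_ball_fin_two]
  rw [ENNReal.toReal_mul, ENNReal.toReal_pow, ENNReal.toReal_ofReal hr,
    ENNReal.toReal_ofReal Real.pi_pos.le]
  ring

/-- radial integration in the plane -/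
lemma integral_radial (f : ℝ → ℝ) (c : E) :
    ∫ x : E, f ‖x - c‖ = 2 * π * ∫ y in Ioi (0 : ℝ), y * f y := by
  rw [integral_sub_right_eq_self (fun x : E => f ‖x‖) c, integral_fun_norm_addHaar]
  rw [finrank_E, vol_real_ball 0 zero_le_one]
  simp
  ring

lemma integral_radial_ball (f : ℝ → ℝ) (c : E) (r : ℝ) :
    ∫ x in ball c r, f ‖x - c‖ = 2 * π * ∫ y in Ioo (0 : ℝ) r, y * f y := by
  have h1 : ∫ x in ball c r, f ‖x - c‖ = ∫ x : E, (Iio r).indicator f ‖x - c‖ := by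
    rw [← integral_indicator measurableSet_ball]
    congr 1
  rw [h1, integral_radial]
  congr 1
  have : ∀ y : ℝ, y * (Iio r).indicator f y = (Iio r).indicator (fun y => y * f y) y := by
    intro y
    simp only [indicator]
    split_ifs <;> simp
  simp only [this]
  rw [setIntegral_indicator measurableSet_Iio]
  rfl

lemma radial_bound {s r : ℝ} (hs : 0 < s) (hr : 0 < r) (c : E) :
    ∫ x in ball c r, ‖x - c‖ ^ 2 / (wt c s x) ^ 2 ≤ π * Real.log ((r ^ 2 + s ^ 2) / s ^ 2) := by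
  have h0 : ∫ x in ball c r, ‖x - c‖ ^ 2 / (wt c s x) ^ 2 =
      ∫ x in ball c r, (fun y : ℝ => y ^ 2 / (y ^ 2 + s ^ 2) ^ 2) ‖x - c‖ := rfl
  rw [h0, integral_radial_ball (fun y : ℝ => y ^ 2 / (y ^ 2 + s ^ 2) ^ 2) c r]
  have hderiv : ∀ y : ℝ, HasDerivAt (fun y : ℝ => (1 / 2) * Real.log (y ^ 2 + s ^ 2))
      (y / (y ^ 2 + s ^ 2)) y := by
    intro y
    have h1 : HasDerivAt (fun y : ℝ => y ^ 2 + s ^ 2) (2 * y) y := by
      have := (hasDerivAt_pow 2 y).add_const (s ^ 2)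
      simpa using this
    have h2 := (h1.log (by positivity)).const_mul (1 / 2 : ℝ)
    refine h2.congr_deriv ?_
    ring
  have hcont : Continuous fun y : ℝ => y / (y ^ 2 + s ^ 2) := by
    refine continuous_id.div (by fun_prop) ?_
    intro y; positivity
  have hcont2 : Continuous fun y : ℝ => y * (y ^ 2 / (y ^ 2 + s ^ 2) ^ 2) := by
    refine continuous_id.mul ((continuous_id.pow 2).div (by fun_prop) ?_)
    intro y; positivity
  have h1 : ∫ y in (0 : ℝ)..r, y / (y ^ 2 + s ^ 2) =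
      (1 / 2) * Real.log (r ^ 2 + s ^ 2) - (1 / 2) * Real.log (0 ^ 2 + s ^ 2) :=
    intervalIntegral.integral_eq_sub_of_hasDerivAt (fun y _ => hderiv y)
      (hcont.intervalIntegrable _ _)
  have h2 : ∫ y in Ioo (0 : ℝ) r, y * (y ^ 2 / (y ^ 2 + s ^ 2) ^ 2) ≤
      (1 / 2) * Real.log ((r ^ 2 + s ^ 2) / s ^ 2) := by
    rw [← integral_Ioc_eq_integral_Ioo, ← intervalIntegral.integral_of_le hr.le]
    have h3 : ∫ y in (0 : ℝ)..r, y * (y ^ 2 / (y ^ 2 + s ^ 2) ^ 2) ≤
        ∫ y in (0 : ℝ)..r, y / (y ^ 2 + s ^ 2) := by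
      refine intervalIntegral.integral_mono_on hr.le (hcont2.intervalIntegrable _ _)
        (hcont.intervalIntegrable _ _) ?_
      intro y hy
      have hy0 : 0 ≤ y := hy.1
      have hd : 0 < y ^ 2 + s ^ 2 := by positivity
      rw [div_eq_mul_inv y]
      refine mul_le_mul_of_nonneg_left ?_ hy0
      rw [div_le_iff₀ (by positivity), ← one_div, div_mul_eq_mul_div, le_div_iff₀ hd]
      nlinarith [sq_nonneg s, hd]
    refine h3.trans ?_
    rw [h1, Real.log_div (by positivity) (by positivity)]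
    norm_num
    linarith
  calc 2 * π * ∫ y in Ioo (0 : ℝ) r, y * (fun y : ℝ => y ^ 2 / (y ^ 2 + s ^ 2) ^ 2) y
      ≤ 2 * π * ((1 / 2) * Real.log ((r ^ 2 + s ^ 2) / s ^ 2)) :=
        mul_le_mul_of_nonneg_left h2 (by positivity)
    _ = π * Real.log ((r ^ 2 + s ^ 2) / s ^ 2) := by ring

end PoolEd80
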